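import Mathlib

/-! Combinatorial core: disjoint signed sets with flat Fourier transform. -/

set_option autoImplicit false

namespace R848.SICP

open Finset
open scoped BigOperators ComplexConjugate

/-- a finite Fourier kernel -/
structure Kern {X : Type} [Fintype X] [DecidableEq X] (K : X → X → ℂ) (o : X) (N : ℕ) : Prop where
  left : ∀ y, K y o = 1
  right : ∀ x, K o x = 1
  norm : ∀ y x, ‖K y x‖ = 1
  orth : ∀ x x', ∑ y, conj (K y x) * K y x' = if x = x' then (N : ℂ) else 0
  sumx : ∀ y, ∑ x, K y x = if y = o then (N : ℂ) else 0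

variable {X : Type} [Fintype X] [DecidableEq X] {K : X → X → ℂ} {o : X} {N : ℕ}

theorem Kern.card (hK : Kern K o N) : Fintype.card X = N := by
  have h := hK.sumx o
  rw [if_pos rfl, Finset.sum_congr rfl (fun x _ => hK.right x)] at h
  simp only [sum_const, card_univ, nsmul_eq_mul, mul_one] at h
  exact_mod_cast h

theorem Kern.inv0 (hK : Kern K o N) (f : X → ℤ) (F : X → ℤ)
    (hF : ∀ y, ∑ x, K y x * (f x : ℂ) = F y) : ∑ y, F y = N * f o := by
  have h1 : ∀ x, ∑ y, K y x = if o = x then (N : ℂ) else 0 := by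
    intro x
    rw [← hK.orth o x]
    apply Finset.sum_congr rfl
    intro y _
    rw [hK.left, map_one, one_mul]
  have h2 : ((∑ y, F y : ℤ) : ℂ) = ((N * f o : ℤ) : ℂ) := by
    push_cast
    rw [← Finset.sum_congr rfl (fun y _ => hF y), Finset.sum_comm]
    have : ∀ x, ∑ y, K y x * (f x : ℂ) = (if o = x then (N : ℂ) * f x else 0) := by
      intro x
      rw [← Finset.sum_mul, h1]
      split_ifs <;> simp
    rw [Finset.sum_congr rfl (fun x _ => this x), Finset.sum_ite_eq]
    simp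
  exact_mod_cast h2

theorem Kern.parseval (hK : Kern K o N) (f g : X → ℤ) (F G : X → ℤ)
    (hF : ∀ y, ∑ x, K y x * (f x : ℂ) = F y) (hG : ∀ y, ∑ x, K y x * (g x : ℂ) = G y) :
    ∑ y, F y * G y = N * ∑ x, f x * g x := by
  have h2 : ((∑ y, F y * G y : ℤ) : ℂ) = ((N * ∑ x, f x * g x : ℤ) : ℂ) := by
    push_cast
    have h3 : ∀ y, (F y : ℂ) * G y = ∑ x, ∑ x', (conj (K y x) * K y x') * ((f x : ℂ) * g x') := by
      intro y
      have : (F y : ℂ) = conj (F y : ℂ) := by simp
      rw [this, ← hF, ← hG, map_sum, Finset.sum_mul_sum]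
      apply Finset.sum_congr rfl; intro x _
      apply Finset.sum_congr rfl; intro x' _
      rw [map_mul]
      simp only [map_intCast]
      ring
    rw [Finset.sum_congr rfl (fun y _ => h3 y), Finset.sum_comm, Finset.mul_sum]
    apply Finset.sum_congr rfl; intro x _
    rw [Finset.sum_comm]
    have h4 : ∀ x', ∑ y, (conj (K y x) * K y x') * ((f x : ℂ) * g x') =
        (if x = x' then (N : ℂ) * ((f x : ℂ) * g x') else 0) := by
      intro x'
      rw [← Finset.sum_mul, hK.orth]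
      split_ifs <;> simp
    rw [Finset.sum_congr rfl (fun x' _ => h4 x'), Finset.sum_ite_eq]
    simp
  exact_mod_cast h2

theorem Kern.bound (hK : Kern K o N) (f : X → ℤ) (y : X) (F : ℤ)
    (hF : ∑ x, K y x * (f x : ℂ) = F) : |F| ≤ ∑ x, |f x| := by
  have h1 : ‖(F : ℂ)‖ ≤ ∑ x, ‖K y x * (f x : ℂ)‖ := by
    rw [← hF]; exact norm_sum_le _ _
  have h2 : ∀ x, ‖K y x * (f x : ℂ)‖ = ((|f x| : ℤ) : ℝ) := by
    intro x
    rw [norm_mul, hK.norm, one_mul, Complex.norm_intCast, Int.cast_abs]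
  rw [Finset.sum_congr rfl (fun x _ => h2 x), Complex.norm_intCast] at h1
  have h3 : ((|F| : ℤ) : ℝ) ≤ ((∑ x, |f x| : ℤ) : ℝ) := by
    push_cast
    push_cast at h1
    exact h1
  exact_mod_cast h3

/-- parity argument: a set `w` of odd size `D` in a group of size `D^2` with flat transform
contains the origin. -/
theorem Kern.flat (D : ℕ) (hD : Odd D) (hK : Kern K o (D ^ 2)) (w : X → ℤ)
    (hw : ∀ x, w x = 0 ∨ w x = 1) (hs : ∑ x, w x = D) (β : X → ℤ)
    (hβ : ∀ y, β y = 0 ∨ β y = 1 ∨ β y = -1)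
    (hT : ∀ y, ∑ x, K y x * (w x : ℂ) = ((D * β y : ℤ) : ℂ)) :
    w o = 1 ∧ (∀ y, β y = 0 ∨ β y = 1) ∧ ∑ y, β y = D := by
  have hD0 : (D : ℤ) ≠ 0 := by
    have := hD.pos
    exact_mod_cast this.ne'
  have h1 : ∑ y, β y = D * w o := by
    have := hK.inv0 w (fun y => D * β y) hT
    rw [← Finset.mul_sum] at this
    push_cast at this
    have h : (D : ℤ) * (∑ y, β y) = D * (D * w o) := by rw [this]; ring
    exact mul_left_cancel₀ hD0 h
  have h2 : ∑ y, β y ^ 2 = D := by
    have := hK.parseval w w (fun y => D * β y) (fun y => D * β y) hT hT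
    have e1 : ∑ y, (D * β y) * (D * β y) = (D : ℤ) ^ 2 * ∑ y, β y ^ 2 := by
      rw [Finset.mul_sum]; apply Finset.sum_congr rfl; intro y _; ring
    have e2 : ∑ x, w x * w x = D := by
      rw [← hs]; apply Finset.sum_congr rfl; intro x _
      rcases hw x with h | h <;> rw [h] <;> norm_num
    rw [e1, e2] at this
    push_cast at this
    exact mul_left_cancel₀ (pow_ne_zero 2 hD0) this
  have h3 : ∃ k, ∑ y, (β y ^ 2 - β y) = 2 * k := by
    have : (2 : ℤ) ∣ ∑ y, (β y ^ 2 - β y) := by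
      apply Finset.dvd_sum
      intro y _
      rcases hβ y with h | h | h <;> rw [h] <;> norm_num
    obtain ⟨k, hk⟩ := this
    exact ⟨k, hk⟩
  obtain ⟨k, hk⟩ := h3
  rw [Finset.sum_sub_distrib, h2, h1] at hk
  have hwo : w o = 1 := by
    rcases hw o with h | h
    · exfalso
      rw [h, mul_zero, sub_zero] at hk
      obtain ⟨j, hj⟩ := hD
      rw [hj] at hk
      push_cast at hk
      omega
    · exact h
  refine ⟨hwo, ?_, by rw [h1, hwo, mul_one]⟩
  have h4 : ∑ y, (β y ^ 2 - β y) = 0 := by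
    rw [Finset.sum_sub_distrib, h2, h1, hwo]; ring
  have h5 : ∀ y ∈ Finset.univ, 0 ≤ β y ^ 2 - β y := by
    intro y _
    rcases hβ y with h | h | h <;> rw [h] <;> norm_num
  intro y
  have h6 := (Finset.sum_eq_zero_iff_of_nonneg h5).1 h4 y (Finset.mem_univ y)
  rcases hβ y with h | h | h
  · exact Or.inl h
  · exact Or.inr h
  · rw [h] at h6; norm_num at h6

/-- the core lemma, normalised sign -/
theorem core_pos (D q : ℕ) (hD : Odd D) (hq : 3 ≤ q) (hDq : D = 1 ∨ 5 ≤ q)
    (hK : Kern K o (D ^ 2)) {L : Type} [Fintype L] (hL : Fintype.card L = q + 1)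
    (κ : X → ℤ) (hκ : ∀ x, κ x = 1 ∨ κ x = -1)
    (z : L → X → ℤ) (hz : ∀ l x, z l x = 0 ∨ z l x = 1) (hz1 : ∀ x, ∑ l, z l x ≤ 1)
    (b : L → X → ℤ) (hb : ∀ l y, b l y = 0 ∨ b l y = 1 ∨ b l y = -1)
    (hbT : ∀ l y, ∑ x, K y x * ((κ x * z l x : ℤ) : ℂ) = ((D * b l y : ℤ) : ℂ))
    (k' : X → ℤ) (hk' : ∀ y, y ≠ o → k' y = 0 ∨ k' y = 1 ∨ k' y = -1)
    (hk'T : ∀ y, y ≠ o → ∑ x, K y x * (κ x : ℂ) = ((2 * D * k' y : ℤ) : ℂ))
    (b0 : X → ℤ) (hb0 : ∀ y, y ≠ o → b0 y = 0 ∨ b0 y = 1 ∨ b0 y = -1)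
    (hrel : ∀ y, y ≠ o → (q : ℤ) * k' y = b0 y + ∑ l, b l y)
    (hS : ∑ x, κ x = (D : ℤ) ^ 2 ∨ (∑ x, κ x = (D : ℤ) * (D - 2) ∧ 3 ≤ D)) :
    ∑ x, κ x * ((q : ℤ) ^ 2 - 2 * q * ∑ l, z l x) = ((q : ℤ) * D) ^ 2 ∨
    ∑ x, κ x * ((q : ℤ) ^ 2 - 2 * q * ∑ l, z l x) = (q : ℤ) * D * (q * D - 2) := by
  have hcard : ∑ _x : X, (1 : ℤ) = (D : ℤ) ^ 2 := by
    rw [sum_const, card_univ, hK.card]; simp
  have hDpos : 0 < D := hD.pos
  have hDpos' : (0 : ℤ) < D := by exact_mod_cast hDpos
  have hz0 : ∀ l x, 0 ≤ z l x := by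
    intro l x; rcases hz l x with h | h <;> rw [h] <;> norm_num
  rcases hS with hS | ⟨hS, hD3⟩
  · -- Case A
    have hκ1 : ∀ x, κ x = 1 := by
      have h1 : ∑ x, (1 - κ x) = 0 := by
        rw [Finset.sum_sub_distrib, hcard, hS, sub_self]
      have h2 : ∀ x ∈ Finset.univ, 0 ≤ 1 - κ x := by
        intro x _; rcases hκ x with h | h <;> rw [h] <;> norm_num
      intro x
      have := (Finset.sum_eq_zero_iff_of_nonneg h2).1 h1 x (Finset.mem_univ x)
      linarith
    have hT : ∀ l y, ∑ x, K y x * (z l x : ℂ) = ((D * b l y : ℤ) : ℂ) := by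
      intro l y
      rw [← hbT]
      apply Finset.sum_congr rfl; intro x _
      rw [hκ1, one_mul]
    have hsl : ∀ l, ∑ x, z l x = D * b l o := by
      intro l
      have := hT l o
      have h2 : ∑ x, K o x * (z l x : ℂ) = ((∑ x, z l x : ℤ) : ℂ) := by
        push_cast
        apply Finset.sum_congr rfl; intro x _
        rw [hK.right, one_mul]
      rw [h2] at this
      exact_mod_cast this
    have hblo : ∀ l, b l o = 0 ∨ b l o = 1 := by
      intro l
      rcases hb l o with h | h | h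
      · exact Or.inl h
      · exact Or.inr h
      · exfalso
        have h1 := hsl l
        have h2 : 0 ≤ ∑ x, z l x := Finset.sum_nonneg (fun x _ => hz0 l x)
        rw [h] at h1
        linarith
    have hble : ∀ l, b l o ≤ z l o := by
      intro l
      rcases hblo l with h | h
      · rw [h]; exact hz0 l o
      · have := (hK.flat D hD (z l) (hz l) (by rw [hsl, h, mul_one]) (b l) (hb l) (hT l)).1
        rw [this, h]
    have hB1 : ∑ l, b l o ≤ 1 := (Finset.sum_le_sum (fun l _ => hble l)).trans (hz1 o)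
    have hB0 : 0 ≤ ∑ l, b l o := Finset.sum_nonneg (fun l _ => by
      rcases hblo l with h | h <;> rw [h] <;> norm_num)
    have hsum : ∑ x, κ x * ((q : ℤ) ^ 2 - 2 * q * ∑ l, z l x) =
        (q : ℤ) ^ 2 * D ^ 2 - 2 * q * (D * ∑ l, b l o) := by
      have e1 : ∀ x, κ x * ((q : ℤ) ^ 2 - 2 * q * ∑ l, z l x) =
          (q : ℤ) ^ 2 * 1 - 2 * q * ∑ l, z l x := by
        intro x; rw [hκ1]; ring
      rw [Finset.sum_congr rfl (fun x _ => e1 x), Finset.sum_sub_distrib, ← Finset.mul_sum,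
        ← Finset.mul_sum, hcard, Finset.sum_comm, Finset.sum_congr rfl (fun l _ => hsl l),
        ← Finset.mul_sum]
    have hB : ∑ l, b l o = 0 ∨ ∑ l, b l o = 1 := by omega
    rcases hB with h | h
    · left; rw [hsum, h]; ring
    · right; rw [hsum, h]; ring
  · -- Case B
    exfalso
    have hq5 : 5 ≤ q := by
      rcases hDq with h | h
      · omega
      · exact h
    have hchoose : ∀ x, ∃ w : ℤ, (w = 0 ∨ w = 1) ∧ κ x = 1 - 2 * w := by
      intro x
      rcases hκ x with h | h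
      · exact ⟨0, Or.inl rfl, by rw [h]; norm_num⟩
      · exact ⟨1, Or.inr rfl, by rw [h]; norm_num⟩
    choose w hw hκw using hchoose
    have hws : ∑ x, w x = D := by
      have h1 : ∑ x, κ x = ∑ _x : X, (1 : ℤ) - 2 * ∑ x, w x := by
        rw [Finset.sum_congr rfl (fun x _ => hκw x), Finset.sum_sub_distrib, Finset.mul_sum]
      rw [hS, hcard] at h1
      nlinarith
    set β : X → ℤ := fun y => if y = o then 1 else - k' y with hβ
    have hβ3 : ∀ y, β y = 0 ∨ β y = 1 ∨ β y = -1 := by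
      intro y
      by_cases hy : y = o
      · simp [hβ, hy]
      · simp only [hβ, if_neg hy]
        rcases hk' y hy with h | h | h <;> rw [h] <;> norm_num
    have hwT : ∀ y, ∑ x, K y x * (w x : ℂ) = ((D * β y : ℤ) : ℂ) := by
      intro y
      have h1 : ∑ x, K y x * (κ x : ℂ) = ∑ x, K y x - 2 * ∑ x, K y x * (w x : ℂ) := by
        rw [Finset.mul_sum, ← Finset.sum_sub_distrib]
        apply Finset.sum_congr rfl; intro x _
        rw [hκw]; push_cast; ring
      by_cases hy : y = o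
      · subst hy
        simp only [hβ, if_true, mul_one]
        have h2 : ∑ x, K y x * (w x : ℂ) = ((∑ x, w x : ℤ) : ℂ) := by
          push_cast
          apply Finset.sum_congr rfl; intro x _
          rw [hK.right, one_mul]
        rw [h2, hws]
      · simp only [hβ, if_neg hy]
        rw [hk'T y hy, hK.sumx, if_neg hy] at h1
        push_cast at h1 ⊢
        linear_combination (1/2 : ℂ) * h1
    obtain ⟨hwo, hβ01, hβs⟩ := hK.flat D hD w hw hws β hβ3 hwT
    have hcross : ∀ l, ∑ y, β y * b l y = - ∑ x, w x * z l x := by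
      intro l
      have h1 := hK.parseval w (fun x => κ x * z l x) (fun y => D * β y) (fun y => D * b l y)
        hwT (hbT l)
      have e1 : ∑ y, (D * β y) * (D * b l y) = (D : ℤ) ^ 2 * ∑ y, β y * b l y := by
        rw [Finset.mul_sum]; apply Finset.sum_congr rfl; intro y _; ring
      have e2 : ∑ x, w x * (κ x * z l x) = - ∑ x, w x * z l x := by
        rw [← Finset.sum_neg_distrib]
        apply Finset.sum_congr rfl; intro x _
        rw [hκw]
        rcases hw x with h | h <;> rw [h] <;> ring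
      rw [e1, e2] at h1
      push_cast at h1
      exact mul_left_cancel₀ (pow_ne_zero 2 hDpos'.ne') h1
    have htot : ∑ y, β y * ∑ l, b l y = - ∑ x, w x * ∑ l, z l x := by
      have e1 : ∑ y, β y * ∑ l, b l y = ∑ l, ∑ y, β y * b l y := by
        rw [Finset.sum_comm]; apply Finset.sum_congr rfl; intro y _; rw [Finset.mul_sum]
      have e2 : ∑ x, w x * ∑ l, z l x = ∑ l, ∑ x, w x * z l x := by
        rw [Finset.sum_comm]; apply Finset.sum_congr rfl; intro y _; rw [Finset.mul_sum]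
      rw [e1, e2, Finset.sum_congr rfl (fun l _ => hcross l), Finset.sum_neg_distrib]
    have hlow : -(D : ℤ) ≤ ∑ y, β y * ∑ l, b l y := by
      rw [htot]
      have : ∑ x, w x * ∑ l, z l x ≤ ∑ x, w x := by
        apply Finset.sum_le_sum
        intro x _
        rcases hw x with h | h
        · rw [h, zero_mul]
        · rw [h, one_mul]; exact hz1 x
      rw [hws] at this
      linarith
    -- bounds on the inner sums
    have hBle : ∀ y, ∑ l, b l y ≤ q + 1 := by
      intro y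
      have : ∑ l, b l y ≤ ∑ _l : L, (1 : ℤ) := by
        apply Finset.sum_le_sum
        intro l _
        rcases hb l y with h | h | h <;> rw [h] <;> norm_num
      rw [sum_const, card_univ, hL] at this
      simpa using this
    have hBneg : ∀ y, y ≠ o → β y = 1 → ∑ l, b l y ≤ - q + 1 := by
      intro y hy h1
      have h2 := hrel y hy
      have h3 : k' y = -1 := by
        simp only [hβ, if_neg hy] at h1
        linarith
      rw [h3] at h2
      rcases hb0 y hy with h | h | h <;> rw [h] at h2 <;> linarith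
    have hupp : ∑ y, β y * ∑ l, b l y ≤ (q + 1) + (D - 1) * (- q + 1) := by
      have h1 : ∀ y, β y * ∑ l, b l y ≤ β y * (- q + 1) + (if y = o then (2 * q : ℤ) else 0) := by
        intro y
        by_cases hy : y = o
        · rw [if_pos hy]
          have : β y = 1 := by simp [hβ, hy]
          rw [this]
          have := hBle y
          linarith
        · rw [if_neg hy, add_zero]
          rcases hβ01 y with h | h
          · rw [h]; simp
          · rw [h, one_mul, one_mul]; exact hBneg y hy h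
      calc ∑ y, β y * ∑ l, b l y ≤ ∑ y, (β y * (- q + 1) + (if y = o then (2 * q : ℤ) else 0)) :=
            Finset.sum_le_sum (fun y _ => h1 y)
        _ = _ := by
            rw [Finset.sum_add_distrib, ← Finset.sum_mul, hβs, Finset.sum_ite_eq']
            simp only [mem_univ, if_true]
            ring
    have hkey : (D : ℤ) * q ≤ 2 * D + 2 * q := by nlinarith
    -- existence of a nonzero `y` with `β y = 1`
    have hex : ∃ y, y ≠ o ∧ β y = 1 := by
      by_contra hcon
      push Not at hcon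
      have h1 : ∑ y, β y = 1 := by
        rw [Finset.sum_eq_single o]
        · simp [hβ]
        · intro y _ hy
          rcases hβ01 y with h | h
          · exact h
          · exact absurd h (hcon y hy)
        · simp
      rw [hβs] at h1
      have : D = 1 := by exact_mod_cast h1
      omega
    obtain ⟨y, hy, hy1⟩ := hex
    have hBy := hBneg y hy hy1
    have hq1 : (q : ℤ) - 1 ≤ D := by
      have h1 : ∀ l, - b l y * D ≤ ∑ x, z l x := by
        intro l
        have h2 := hK.bound (fun x => κ x * z l x) y (D * b l y) (hbT l y)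
        have h3 : ∀ x, |κ x * z l x| = z l x := by
          intro x
          rw [abs_mul]
          have e1 : |κ x| = 1 := by rcases hκ x with h | h <;> rw [h] <;> norm_num
          rw [e1, one_mul, abs_of_nonneg (hz0 l x)]
        rw [Finset.sum_congr rfl (fun x _ => h3 x)] at h2
        have h4 := neg_abs_le ((D : ℤ) * b l y)
        linarith
      have h2 : (- ∑ l, b l y) * D ≤ (D : ℤ) ^ 2 := by
        calc (- ∑ l, b l y) * D = ∑ l, (- b l y * D) := by
              rw [← Finset.sum_neg_distrib, Finset.sum_mul]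
          _ ≤ ∑ l, ∑ x, z l x := Finset.sum_le_sum (fun l _ => h1 l)
          _ = ∑ x, ∑ l, z l x := Finset.sum_comm
          _ ≤ ∑ _x : X, (1 : ℤ) := Finset.sum_le_sum (fun x _ => hz1 x)
          _ = _ := hcard
      have h3 : ((q : ℤ) - 1) * D ≤ D * D := by nlinarith
      exact le_of_mul_le_mul_right h3 hDpos'
    obtain ⟨i, hi⟩ := hD
    have hqz : (5 : ℤ) ≤ q := by exact_mod_cast hq5
    have hDz : (3 : ℤ) ≤ D := by exact_mod_cast hD3
    have hD5 : (5 : ℤ) ≤ D := by
      have : 4 ≤ D := by omega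
      have : 5 ≤ D := by omega
      exact_mod_cast this
    nlinarith

/-- the core lemma -/
theorem core (D q : ℕ) (hD : Odd D) (hq : 3 ≤ q) (hDq : D = 1 ∨ 5 ≤ q)
    (hK : Kern K o (D ^ 2)) {L : Type} [Fintype L] (hL : Fintype.card L = q + 1)
    (κ : X → ℤ) (hκ : ∀ x, κ x = 1 ∨ κ x = -1)
    (z : L → X → ℤ) (hz : ∀ l x, z l x = 0 ∨ z l x = 1) (hz1 : ∀ x, ∑ l, z l x ≤ 1)
    (b : L → X → ℤ) (hb : ∀ l y, b l y = 0 ∨ b l y = 1 ∨ b l y = -1)
    (hbT : ∀ l y, ∑ x, K y x * ((κ x * z l x : ℤ) : ℂ) = ((D * b l y : ℤ) : ℂ))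
    (k' : X → ℤ) (hk' : ∀ y, y ≠ o → k' y = 0 ∨ k' y = 1 ∨ k' y = -1)
    (hk'T : ∀ y, y ≠ o → ∑ x, K y x * (κ x : ℂ) = ((2 * D * k' y : ℤ) : ℂ))
    (b0 : X → ℤ) (hb0 : ∀ y, y ≠ o → b0 y = 0 ∨ b0 y = 1 ∨ b0 y = -1)
    (hrel : ∀ y, y ≠ o → (q : ℤ) * k' y = b0 y + ∑ l, b l y)
    (hS : ∃ σ : ℤ, (σ = 1 ∨ σ = -1) ∧
      (∑ x, κ x = σ * (D : ℤ) ^ 2 ∨ ∑ x, κ x = σ * ((D : ℤ) * (D - 2)))) :
    ∃ σ : ℤ, (σ = 1 ∨ σ = -1) ∧
      (∑ x, κ x * ((q : ℤ) ^ 2 - 2 * q * ∑ l, z l x) = σ * ((q : ℤ) * D) ^ 2 ∨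
       ∑ x, κ x * ((q : ℤ) ^ 2 - 2 * q * ∑ l, z l x) = σ * ((q : ℤ) * D * (q * D - 2))) := by
  -- normalise
  have hS' : ∃ σ : ℤ, (σ = 1 ∨ σ = -1) ∧
      (∑ x, σ * κ x = (D : ℤ) ^ 2 ∨ (∑ x, σ * κ x = (D : ℤ) * (D - 2) ∧ 3 ≤ D)) := by
    obtain ⟨σ, hσ, h⟩ := hS
    have hσ2 : σ * σ = 1 := by rcases hσ with h | h <;> rw [h] <;> norm_num
    rcases h with h | h
    · refine ⟨σ, hσ, Or.inl ?_⟩
      rw [← Finset.mul_sum, h, ← mul_assoc, hσ2, one_mul]
    · by_cases hD1 : D = 1
      · refine ⟨-σ, by rcases hσ with h | h <;> rw [h] <;> norm_num, Or.inl ?_⟩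
        rw [← Finset.mul_sum, h, hD1]
        rcases hσ with h | h <;> rw [h] <;> norm_num
      · refine ⟨σ, hσ, Or.inr ⟨?_, ?_⟩⟩
        · rw [← Finset.mul_sum, h, ← mul_assoc, hσ2, one_mul]
        · obtain ⟨i, hi⟩ := hD
          omega
  obtain ⟨σ, hσ, hS'⟩ := hS'
  have hσ2 : σ * σ = 1 := by rcases hσ with h | h <;> rw [h] <;> norm_num
  have h3 : ∀ v : ℤ, (v = 0 ∨ v = 1 ∨ v = -1) → (σ * v = 0 ∨ σ * v = 1 ∨ σ * v = -1) := by
    intro v hv
    rcases hσ with h | h <;> rcases hv with h' | h' | h' <;> rw [h, h'] <;> norm_num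
  have hmain := core_pos D q hD hq hDq hK hL (fun x => σ * κ x)
    (by
      intro x
      rcases hσ with h | h <;> rcases hκ x with h' | h' <;> rw [h, h'] <;> norm_num)
    z hz hz1 (fun l y => σ * b l y) (fun l y => h3 _ (hb l y))
    (by
      intro l y
      have := hbT l y
      calc ∑ x, K y x * ((σ * κ x * z l x : ℤ) : ℂ)
          = (σ : ℂ) * ∑ x, K y x * ((κ x * z l x : ℤ) : ℂ) := by
            rw [Finset.mul_sum]; apply Finset.sum_congr rfl; intro x _; push_cast; ring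
        _ = _ := by rw [this]; push_cast; ring)
    (fun y => σ * k' y) (fun y hy => h3 _ (hk' y hy))
    (by
      intro y hy
      have := hk'T y hy
      calc ∑ x, K y x * ((σ * κ x : ℤ) : ℂ)
          = (σ : ℂ) * ∑ x, K y x * (κ x : ℂ) := by
            rw [Finset.mul_sum]; apply Finset.sum_congr rfl; intro x _; push_cast; ring
        _ = _ := by rw [this]; push_cast; ring)
    (fun y => σ * b0 y) (fun y hy => h3 _ (hb0 y hy))
    (by
      intro y hy
      have := hrel y hy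
      calc (q : ℤ) * (σ * k' y) = σ * (q * k' y) := by ring
        _ = _ := by rw [this, mul_add, Finset.mul_sum])
    hS'
  refine ⟨σ, hσ, ?_⟩
  have e1 : ∑ x, σ * κ x * ((q : ℤ) ^ 2 - 2 * q * ∑ l, z l x) =
      σ * ∑ x, κ x * ((q : ℤ) ^ 2 - 2 * q * ∑ l, z l x) := by
    rw [Finset.mul_sum]; apply Finset.sum_congr rfl; intro x _; ring
  rw [e1] at hmain
  have e2 : ∀ v w : ℤ, σ * v = w → v = σ * w := by
    intro v w h
    rw [← h, ← mul_assoc, hσ2, one_mul]
  rcases hmain with h | h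
  · left; exact e2 _ _ h
  · right; exact e2 _ _ h

end R848.SICP
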