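import Mathlib

/-! Slices of a unit-invariant function along a prime: line decomposition. -/

set_option autoImplicit false

namespace R848.SICP

open Finset
open scoped BigOperators ComplexConjugate

section lines

variable {q : ℕ} [Fact q.Prime]

/-- representatives of the lines through the origin in `(ZMod q)^2` -/
def rep : Option (ZMod q) → ZMod q × ZMod q
  | none => (0, 1)
  | some t => (1, t)

theorem rep_ne (l : Option (ZMod q)) : rep l ≠ (0, 0) := by
  cases l with
  | none => simp [rep]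
  | some t => simp [rep]

theorem line_sum {M : Type} [AddCommMonoid M] (F : ZMod q → ZMod q → M) :
    ∑ a, ∑ b, F a b = F 0 0 + ∑ l : Option (ZMod q), ∑ k ∈ univ.erase (0 : ZMod q),
      F (k * (rep l).1) (k * (rep l).2) := by
  rw [Fintype.sum_option, ← Finset.add_sum_erase univ (fun a => ∑ b, F a b) (mem_univ 0),
    ← Finset.add_sum_erase univ (fun b => F 0 b) (mem_univ 0)]
  simp only [rep, mul_zero, mul_one]
  rw [add_assoc]
  congr 1
  congr 1
  conv_rhs => rw [Finset.sum_comm]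
  apply Finset.sum_congr rfl
  intro k hk
  have hk0 : k ≠ 0 := (mem_erase.1 hk).1
  exact (Equiv.sum_comp (Equiv.mulLeft₀ k hk0) (fun b => F k b)).symm

theorem sum_erase_char (χ : AddChar (ZMod q) ℂ) (hχ : χ.IsPrimitive) (s : ZMod q) :
    ∑ k ∈ univ.erase (0 : ZMod q), χ (k * s) = (if s = 0 then (q : ℂ) else 0) - 1 := by
  have h := AddChar.sum_mulShift s hχ
  rw [ZMod.card, ← Finset.add_sum_erase univ _ (mem_univ 0)] at h
  simp only [zero_mul, AddChar.map_zero_eq_one] at h
  have h2 : ∑ k ∈ univ.erase (0 : ZMod q), χ (k * s) = ((if s = 0 then q else 0 : ℕ) : ℂ) - 1 := by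
    rw [← h]; ring
  rw [h2]
  split_ifs <;> simp

variable (g : ZMod q → ZMod q → ℤ)

/-- the value on the line `l` -/
def cc (l : Option (ZMod q)) : ℤ := g (rep l).1 (rep l).2

theorem sum_plane (hg : ∀ k : ZMod q, k ≠ 0 → ∀ a b, g (k * a) (k * b) = g a b) :
    ∑ a, ∑ b, g a b = g 0 0 + (q - 1) * ∑ l, cc g l := by
  rw [line_sum]
  congr 1
  rw [Finset.mul_sum]
  apply Finset.sum_congr rfl
  intro l _
  rw [Finset.sum_congr rfl (fun k hk => hg k (mem_erase.1 hk).1 _ _)]
  rw [sum_const, card_erase_of_mem (mem_univ _), card_univ, ZMod.card, nsmul_eq_mul]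
  have : 1 ≤ q := (Fact.out : q.Prime).one_lt.le
  push_cast [this]
  rfl

theorem pair_eq_zero_iff (l l' : Option (ZMod q)) :
    (rep l').2 * (rep l).1 - (rep l').1 * (rep l).2 = 0 ↔ l' = l := by
  cases l with
  | none =>
    cases l' with
    | none => simp [rep]
    | some t => simp [rep]
  | some t =>
    cases l' with
    | none => simp [rep]
    | some t' => simp [rep, sub_eq_zero]

theorem sum_plane_char (χ : AddChar (ZMod q) ℂ) (hχ : χ.IsPrimitive)
    (hg : ∀ k : ZMod q, k ≠ 0 → ∀ a b, g (k * a) (k * b) = g a b) (l : Option (ZMod q)) :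
    ∑ a, ∑ b, χ (b * (rep l).1 - a * (rep l).2) * (g a b : ℂ) =
      ((g 0 0 - ∑ l', cc g l' + q * cc g l : ℤ) : ℂ) := by
  rw [line_sum]
  simp only [mul_zero, zero_mul, sub_zero, AddChar.map_zero_eq_one, one_mul]
  have h1 : ∀ l' : Option (ZMod q), ∑ k ∈ univ.erase (0 : ZMod q),
      χ (k * (rep l').2 * (rep l).1 - k * (rep l').1 * (rep l).2) *
        (g (k * (rep l').1) (k * (rep l').2) : ℂ) =
      (if l' = l then (q : ℂ) * cc g l' else 0) - cc g l' := by
    intro l'
    have e1 : ∀ k ∈ univ.erase (0 : ZMod q),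
        χ (k * (rep l').2 * (rep l).1 - k * (rep l').1 * (rep l).2) *
          (g (k * (rep l').1) (k * (rep l').2) : ℂ) =
        χ (k * ((rep l').2 * (rep l).1 - (rep l').1 * (rep l).2)) * (cc g l' : ℂ) := by
      intro k hk
      rw [hg k (mem_erase.1 hk).1]
      have : k * (rep l').2 * (rep l).1 - k * (rep l').1 * (rep l).2 =
        k * ((rep l').2 * (rep l).1 - (rep l').1 * (rep l).2) := by ring
      rw [this]
      rfl
    rw [Finset.sum_congr rfl e1, ← Finset.sum_mul, sum_erase_char χ hχ]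
    by_cases h : l' = l
    · rw [if_pos ((pair_eq_zero_iff l l').2 h), if_pos h]; ring
    · rw [if_neg (fun h' => h ((pair_eq_zero_iff l l').1 h')), if_neg h]; ring
  rw [Finset.sum_congr rfl (fun l' _ => h1 l'), Finset.sum_sub_distrib, Finset.sum_ite_eq']
  simp only [mem_univ, if_true]
  push_cast
  ring

/-- dichotomy for the values on the lines -/
theorem dichotomy (hq3 : 3 ≤ q) (g0 : ℤ) (hg0 : g0 = 1 ∨ g0 = -1) (c : Option (ZMod q) → ℤ)
    (hc : ∀ l, c l = 1 ∨ c l = -1) (hdvd : (q : ℤ) ∣ g0 - ∑ l, c l) :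
    ∃ κ : ℤ, (κ = 1 ∨ κ = -1) ∧ ∑ l, c l - g0 = q * κ ∧
      ∃ z : Option (ZMod q) → ℤ, (∀ l, z l = 0 ∨ z l = 1) ∧ ∑ l, z l ≤ 1 ∧
        g0 = κ * (1 - 2 * ∑ l, z l) ∧ ∀ l, c l = κ * (1 - 2 * z l) := by
  have hqodd : Odd q := (Fact.out : q.Prime).odd_of_ne_two (by omega)
  obtain ⟨i, hi⟩ := hqodd
  have hcard : Fintype.card (Option (ZMod q)) = q + 1 := by
    rw [Fintype.card_option, ZMod.card]
  have hex : ∀ l, ∃ y : ℤ, (y = 0 ∨ y = 1) ∧ c l = 1 - 2 * y := by
    intro l
    rcases hc l with h | h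
    · exact ⟨0, Or.inl rfl, by rw [h]; norm_num⟩
    · exact ⟨1, Or.inr rfl, by rw [h]; norm_num⟩
  choose y hy hcy using hex
  have hC : ∑ l, c l = (q + 1) - 2 * ∑ l, y l := by
    rw [Finset.sum_congr rfl (fun l _ => hcy l), Finset.sum_sub_distrib, ← Finset.mul_sum]
    simp [hcard]
  have hy0 : 0 ≤ ∑ l, y l := Finset.sum_nonneg (fun l _ => by
    rcases hy l with h | h <;> rw [h] <;> norm_num)
  have hy1 : ∑ l, y l ≤ q + 1 := by
    have : ∑ l, y l ≤ ∑ _l : Option (ZMod q), (1 : ℤ) := Finset.sum_le_sum (fun l _ => by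
      rcases hy l with h | h <;> rw [h] <;> norm_num)
    simpa [hcard] using this
  obtain ⟨j, hj⟩ := hdvd
  have hqz : (3 : ℤ) ≤ q := by exact_mod_cast hq3
  have hqi : (q : ℤ) = 2 * i + 1 := by exact_mod_cast hi
  -- `|j| < 2` and `j` is odd
  have hj2 : j < 2 := by
    by_contra h
    push Not at h
    rcases hg0 with h' | h' <;> nlinarith
  have hj3 : -2 < j := by
    by_contra h
    push Not at h
    rcases hg0 with h' | h' <;> nlinarith
  have hj0 : j ≠ 0 := by
    rintro rfl
    rw [mul_zero] at hj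
    rcases hg0 with h' | h' <;> omega
  have hj1 : j = 1 ∨ j = -1 := by omega
  rcases hj1 with h | h
  · subst h
    have hz : ∑ l, (1 - y l) = (q + 1) - ∑ l, y l := by
      rw [Finset.sum_sub_distrib, sum_const, card_univ, hcard]; simp
    refine ⟨-1, Or.inr rfl, by linarith, fun l => 1 - y l, ?_, ?_, ?_, ?_⟩
    · intro l
      show 1 - y l = 0 ∨ 1 - y l = 1
      rcases hy l with h' | h' <;> rw [h'] <;> norm_num
    · show ∑ l, (1 - y l) ≤ 1
      rw [hz]
      rcases hg0 with h' | h' <;> linarith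
    · show g0 = -1 * (1 - 2 * ∑ l, (1 - y l))
      rw [hz]; linarith
    · intro l
      show c l = -1 * (1 - 2 * (1 - y l))
      rw [hcy]
      ring
  · subst h
    refine ⟨1, Or.inl rfl, by linarith, y, hy, ?_, ?_, ?_⟩
    · rcases hg0 with h' | h' <;> linarith
    · linarith
    · intro l
      rw [hcy]
      ring

end lines

end R848.SICP
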