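import Mathlib
import Pool.Agent.R848.SIC.Ram
import Pool.Agent.R848.SICP.Core
import Pool.Agent.R848.SICP.Slice

/-! Induction step: peeling off one prime. -/

set_option autoImplicit false

namespace R848.SICP

open Finset
open scoped BigOperators ComplexConjugate

theorem Kern.dvd {X : Type} [Fintype X] [DecidableEq X] {K : X → X → ℂ} {o : X} {D : ℕ}
    (hD : D ≠ 0) (hK : Kern K o (D ^ 2)) (hint : ∀ y x, IsIntegral ℤ (conj (K y x)))
    (f β : X → ℤ) (c : ℤ) (hc : c ≠ 0)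
    (h : ∀ y, ∑ x, K y x * (f x : ℂ) = ((c * D * β y : ℤ) : ℂ)) (x : X) : c ∣ D * f x := by
  set Y : ℂ := ∑ y, conj (K y x) * (β y : ℂ) with hY
  have hYint : IsIntegral ℤ Y := IsIntegral.sum _ (fun y _ =>
    (hint y x).mul (isIntegral_algebraMap (R := ℤ) (A := ℂ) (x := β y)))
  have h1 : ∑ y, conj (K y x) * ∑ x', K y x' * (f x' : ℂ) = (D : ℂ) ^ 2 * f x := by
    have e1 : ∀ y, conj (K y x) * ∑ x', K y x' * (f x' : ℂ) =
        ∑ x', (conj (K y x) * K y x') * (f x' : ℂ) := by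
      intro y; rw [Finset.mul_sum]; apply Finset.sum_congr rfl; intro x' _; ring
    rw [Finset.sum_congr rfl (fun y _ => e1 y), Finset.sum_comm]
    have e2 : ∀ x', ∑ y, (conj (K y x) * K y x') * (f x' : ℂ) =
        if x = x' then (D : ℂ) ^ 2 * f x' else 0 := by
      intro x'
      rw [← Finset.sum_mul, hK.orth]
      split_ifs <;> simp
    rw [Finset.sum_congr rfl (fun x' _ => e2 x'), Finset.sum_ite_eq]
    simp
  have h2 : (D : ℂ) ^ 2 * f x = c * D * Y := by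
    rw [← h1, hY, Finset.mul_sum]
    apply Finset.sum_congr rfl; intro y _
    rw [h y]; push_cast; ring
  have hDC : (D : ℂ) ≠ 0 := by exact_mod_cast hD
  have hcC : (c : ℂ) ≠ 0 := by exact_mod_cast hc
  have h3 : (D : ℂ) * f x = c * Y := by
    have : (D : ℂ) * ((D : ℂ) * f x) = D * (c * Y) := by rw [← mul_assoc, ← pow_two, h2]; ring
    exact mul_left_cancel₀ hDC this
  have h4 : Y = (((D * f x : ℤ) / c : ℚ) : ℂ) := by
    push_cast
    rw [eq_div_iff hcC, mul_comm Y, h3]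
  obtain ⟨w, hw⟩ := R848.SIC.int_of_integral Y hYint _ h4
  refine ⟨w, ?_⟩
  have : ((D * f x : ℤ) : ℂ) = ((c * w : ℤ) : ℂ) := by
    push_cast; rw [h3, hw]
  exact_mod_cast this

section kern

variable {D : ℕ} [NeZero D]

/-- the symplectic kernel -/
noncomputable def KK (χ : AddChar (ZMod D) ℂ) (y x : ZMod D × ZMod D) : ℂ :=
  χ (x.2 * y.1 - x.1 * y.2)

theorem conj_KK (χ : AddChar (ZMod D) ℂ) (y x : ZMod D × ZMod D) :
    conj (KK χ y x) = χ (-(x.2 * y.1 - x.1 * y.2)) := by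
  rw [KK, AddChar.map_neg_eq_conj]

theorem norm_char (χ : AddChar (ZMod D) ℂ) (z : ZMod D) : ‖χ z‖ = 1 := by
  have h : χ z ^ D = 1 := by
    rw [← AddChar.map_nsmul_eq_pow, nsmul_eq_mul, ZMod.natCast_self, zero_mul,
      AddChar.map_zero_eq_one]
  exact Complex.norm_eq_one_of_pow_eq_one h (NeZero.ne D)

theorem kern_KK (χ : AddChar (ZMod D) ℂ) (hχ : χ.IsPrimitive) :
    Kern (KK χ) ((0 : ZMod D), (0 : ZMod D)) (D ^ 2) := by
  have hs : ∀ u v : ZMod D, ∑ y : ZMod D × ZMod D, χ (y.1 * u + y.2 * v) =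
      if u = 0 ∧ v = 0 then ((D ^ 2 : ℕ) : ℂ) else 0 := by
    intro u v
    rw [Fintype.sum_prod_type]
    have e1 : ∀ x y : ZMod D, χ (x * u + y * v) = χ (x * u) * χ (y * v) :=
      fun x y => AddChar.map_add_eq_mul _ _ _
    simp_rw [e1]
    rw [← Finset.sum_mul_sum, AddChar.sum_mulShift u hχ, AddChar.sum_mulShift v hχ, ZMod.card]
    by_cases hu : u = 0 <;> by_cases hv : v = 0 <;> simp [hu, hv, pow_two]
  refine ⟨?_, ?_, ?_, ?_, ?_⟩
  · intro y; simp [KK]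
  · intro x; simp [KK]
  · intro y x; exact norm_char χ _
  · intro x x'
    have e1 : ∀ y : ZMod D × ZMod D, conj (KK χ y x) * KK χ y x' =
        χ (y.1 * (x'.2 - x.2) + y.2 * (x.1 - x'.1)) := by
      intro y
      rw [conj_KK, KK, ← AddChar.map_add_eq_mul]
      congr 1; ring
    rw [Finset.sum_congr rfl (fun y _ => e1 y), hs]
    have : (x'.2 - x.2 = 0 ∧ x.1 - x'.1 = 0) ↔ x = x' := by
      rw [sub_eq_zero, sub_eq_zero, Prod.ext_iff]
      constructor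
      · rintro ⟨h1, h2⟩; exact ⟨h2, h1.symm⟩
      · rintro ⟨h1, h2⟩; exact ⟨h2.symm, h1⟩
    simp only [this]
  · intro y
    have e1 : ∀ x : ZMod D × ZMod D, KK χ y x = χ (x.1 * (-y.2) + x.2 * y.1) := by
      intro x
      rw [KK]
      congr 1; ring
    rw [Finset.sum_congr rfl (fun x _ => e1 x), hs]
    have : (-y.2 = 0 ∧ y.1 = 0) ↔ y = ((0 : ZMod D), (0 : ZMod D)) := by
      rw [neg_eq_zero, Prod.ext_iff]
      constructor
      · rintro ⟨h1, h2⟩; exact ⟨h2, h1⟩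
      · rintro ⟨h1, h2⟩; exact ⟨h2, h1⟩
    simp only [this]

theorem int_KK (χ : AddChar (ZMod D) ℂ) (y x : ZMod D × ZMod D) :
    IsIntegral ℤ (conj (KK χ y x)) := by
  rw [conj_KK]
  exact R848.SIC.char_integral χ _

theorem int_KK' (χ : AddChar (ZMod D) ℂ) (y x : ZMod D × ZMod D) :
    IsIntegral ℤ (KK χ y x) := R848.SIC.char_integral χ _

end kern

/-- flat transforms -/
def Flat {D : ℕ} [NeZero D] (χ : AddChar (ZMod D) ℂ) (κ : ZMod D → ZMod D → ℤ) : Prop :=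
  (∀ s r, κ s r = 1 ∨ κ s r = -1) ∧ (∀ u, IsUnit u → ∀ s r, κ (u * s) (u * r) = κ s r) ∧
  (∀ x y, ¬ (x = 0 ∧ y = 0) → ∃ β : ℤ, (β = 0 ∨ β = 1 ∨ β = -1) ∧
    ∑ s, ∑ r, χ (r * x - s * y) * (κ s r : ℂ) = ((2 * D * β : ℤ) : ℂ))

def Concl (D : ℕ) (S : ℤ) : Prop :=
  ∃ σ : ℤ, (σ = 1 ∨ σ = -1) ∧ (S = σ * (D : ℤ) ^ 2 ∨ S = σ * ((D : ℤ) * (D - 2)))

theorem step {q D : ℕ} [Fact q.Prime] [NeZero D] (hq3 : 3 ≤ q) (hD : Odd D) (hco : q.Coprime D)
    (hDq : D = 1 ∨ 5 ≤ q)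
    (χ1 : AddChar (ZMod q) ℂ) (h1p : χ1.IsPrimitive) (χ2 : AddChar (ZMod D) ℂ)
    (h2p : χ2.IsPrimitive)
    (F : ZMod q → ZMod D → ZMod q → ZMod D → ℤ)
    (hF : ∀ a s b r, F a s b r = 1 ∨ F a s b r = -1)
    (hu1 : ∀ k : ZMod q, k ≠ 0 → ∀ a s b r, F (k * a) s (k * b) r = F a s b r)
    (hu2 : ∀ u : ZMod D, IsUnit u → ∀ a s b r, F a (u * s) b (u * r) = F a s b r)
    (hFT : ∀ x1 x2 y1 y2, ¬ (x1 = 0 ∧ x2 = 0 ∧ y1 = 0 ∧ y2 = 0) →
      ∃ β : ℤ, (β = 0 ∨ β = 1 ∨ β = -1) ∧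
        ∑ s, ∑ r, ∑ a, ∑ b, (χ1 (b * x1 - a * y1) * χ2 (r * x2 - s * y2)) * (F a s b r : ℂ) =
          ((2 * (q * D) * β : ℤ) : ℂ))
    (IH : ∀ κ : ZMod D → ZMod D → ℤ, Flat χ2 κ → Concl D (∑ s, ∑ r, κ s r)) :
    ∃ σ : ℤ, (σ = 1 ∨ σ = -1) ∧
      (∑ s, ∑ r, ∑ a, ∑ b, F a s b r = σ * ((q : ℤ) * D) ^ 2 ∨
       ∑ s, ∑ r, ∑ a, ∑ b, F a s b r = σ * ((q : ℤ) * D * (q * D - 2))) := by
  classical
  have hqp : q.Prime := Fact.out
  have hD0 : D ≠ 0 := NeZero.ne D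
  have hK := kern_KK χ2 h2p
  have hqodd : Odd q := hqp.odd_of_ne_two (by omega)
  have hcoqD : IsCoprime (q : ℤ) (D : ℤ) := Nat.isCoprime_iff_coprime.2 hco
  have hcoq2 : IsCoprime (q : ℤ) (2 : ℤ) := by
    have : Nat.Coprime q 2 := (Nat.coprime_two_right).2 hqodd
    exact_mod_cast Nat.isCoprime_iff_coprime.2 this
  have hq0 : (q : ℤ) ≠ 0 := by exact_mod_cast hqp.ne_zero
  have hqC : (q : ℂ) ≠ 0 := by exact_mod_cast hqp.ne_zero
  have hDC : (D : ℂ) ≠ 0 := by exact_mod_cast hD0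
  -- slices
  set g : ZMod D × ZMod D → ZMod q → ZMod q → ℤ := fun x a b => F a x.1 b x.2 with hg
  have hgu : ∀ x, ∀ k : ZMod q, k ≠ 0 → ∀ a b, g x (k * a) (k * b) = g x a b :=
    fun x k hk a b => hu1 k hk a x.1 b x.2
  -- transforms at the lines
  have hβ : ∀ (l : Option (ZMod q)) (y : ZMod D × ZMod D), ∃ β : ℤ, (β = 0 ∨ β = 1 ∨ β = -1) ∧
      ∑ x, KK χ2 y x * ((g x 0 0 - ∑ l', cc (g x) l' + q * cc (g x) l : ℤ) : ℂ) =
        ((2 * q * D * β : ℤ) : ℂ) := by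
    intro l y
    obtain ⟨β, hβ, h⟩ := hFT (rep l).1 y.1 (rep l).2 y.2 (by
      rintro ⟨h1, -, h2, -⟩
      exact rep_ne l (Prod.ext h1 h2))
    refine ⟨β, hβ, ?_⟩
    rw [show (2 * (q : ℤ) * D * β) = 2 * (q * D) * β by ring, ← h, Fintype.sum_prod_type]
    apply Finset.sum_congr rfl; intro s _
    apply Finset.sum_congr rfl; intro r _
    rw [← sum_plane_char (g (s, r)) χ1 h1p (hgu _) l, Finset.mul_sum]
    apply Finset.sum_congr rfl; intro a _
    rw [Finset.mul_sum]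
    apply Finset.sum_congr rfl; intro b _
    simp only [KK, hg]
    ring
  choose β hβ3 hβT using hβ
  have hdvd : ∀ (l : Option (ZMod q)) (x : ZMod D × ZMod D),
      (q : ℤ) ∣ g x 0 0 - ∑ l', cc (g x) l' := by
    intro l x
    have h1 := hK.dvd hD0 (int_KK χ2)
      (fun x => g x 0 0 - ∑ l', cc (g x) l' + q * cc (g x) l) (β l) (2 * q)
      (mul_ne_zero two_ne_zero hq0) (hβT l) x
    have h2 : (q : ℤ) ∣ D * (g x 0 0 - ∑ l', cc (g x) l' + q * cc (g x) l) :=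
      (Dvd.intro_left 2 rfl).trans h1
    have h3 := hcoqD.dvd_of_dvd_mul_left h2
    exact (Int.dvd_add_left (Dvd.intro _ rfl)).1 h3
  have hdich := fun x : ZMod D × ZMod D => dichotomy (q := q) hq3 (g x 0 0) (hF _ _ _ _)
    (cc (g x)) (fun l => hF _ _ _ _) (hdvd none x)
  choose κ hκ hκC z hz hz1 hg0 hcl using hdich
  have hH : ∀ l x, g x 0 0 - ∑ l', cc (g x) l' + q * cc (g x) l = -2 * q * (κ x * z x l) := by
    intro l x
    have h1 := hκC x
    have h2 := hcl x l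
    rw [h2]
    linear_combination -h1
  -- the functions `b`
  have hbT : ∀ (l : Option (ZMod q)) y, ∑ x, KK χ2 y x * ((κ x * z x l : ℤ) : ℂ) =
      ((D * (- β l y) : ℤ) : ℂ) := by
    intro l y
    have h1 := hβT l y
    have e1 : ∑ x, KK χ2 y x * ((g x 0 0 - ∑ l', cc (g x) l' + q * cc (g x) l : ℤ) : ℂ) =
        (-2 * q : ℂ) * ∑ x, KK χ2 y x * ((κ x * z x l : ℤ) : ℂ) := by
      rw [Finset.mul_sum]
      apply Finset.sum_congr rfl; intro x _
      rw [hH]; push_cast; ring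
    rw [e1] at h1
    have h2 : (-2 * q : ℂ) ≠ 0 := mul_ne_zero (by norm_num) hqC
    apply mul_left_cancel₀ h2
    rw [h1]; push_cast; ring
  -- the zero frequency in the first component
  have hplane : ∀ x, ∑ a, ∑ b, g x a b = κ x * ((q : ℤ) ^ 2 - 2 * q * ∑ l, z x l) := by
    intro x
    rw [sum_plane (g x) (hgu x)]
    have h1 := hκC x
    have h2 := hg0 x
    have h3 : ∑ l, cc (g x) l = q * κ x + g x 0 0 := by linarith
    rw [h3, h2]; ring
  have hβ0 : ∀ y : ZMod D × ZMod D, ∃ β0 : ℤ, y ≠ (0, 0) → (β0 = 0 ∨ β0 = 1 ∨ β0 = -1) ∧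
      ∑ x, KK χ2 y x * ((κ x * ((q : ℤ) ^ 2 - 2 * q * ∑ l, z x l) : ℤ) : ℂ) =
        ((2 * q * D * β0 : ℤ) : ℂ) := by
    intro y
    by_cases hy : y = (0, 0)
    · exact ⟨0, fun h => absurd hy h⟩
    obtain ⟨β0, hβ0, h⟩ := hFT 0 y.1 0 y.2 (by
      rintro ⟨-, h1, -, h2⟩
      exact hy (Prod.ext h1 h2))
    refine ⟨β0, fun _ => ⟨hβ0, ?_⟩⟩
    rw [show (2 * (q : ℤ) * D * β0) = 2 * (q * D) * β0 by ring, ← h, Fintype.sum_prod_type]
    apply Finset.sum_congr rfl; intro s _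
    apply Finset.sum_congr rfl; intro r _
    rw [← hplane (s, r)]
    push_cast
    rw [Finset.mul_sum]
    apply Finset.sum_congr rfl; intro a _
    rw [Finset.mul_sum]
    apply Finset.sum_congr rfl; intro b _
    simp only [KK, hg, mul_zero, sub_zero, AddChar.map_zero_eq_one, one_mul]
  choose β0 hβ0 using hβ0
  -- the transform of `κ`
  have hcardL : Fintype.card (Option (ZMod q)) = q + 1 := by
    rw [Fintype.card_option, ZMod.card]
  have hk : ∀ y : ZMod D × ZMod D, ∃ k' : ℤ, y ≠ (0, 0) → (k' = 0 ∨ k' = 1 ∨ k' = -1) ∧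
      ∑ x, KK χ2 y x * (κ x : ℂ) = ((2 * D * k' : ℤ) : ℂ) ∧
      (q : ℤ) * k' = β0 y + ∑ l, (- β l y) := by
    intro y
    by_cases hy : y = (0, 0)
    · exact ⟨0, fun h => absurd hy h⟩
    obtain ⟨h0, h1⟩ := hβ0 y hy
    set T : ℂ := ∑ x, KK χ2 y x * (κ x : ℂ) with hT
    set B : ℤ := β0 y + ∑ l, (- β l y) with hB
    have h2 : (q : ℂ) ^ 2 * T - 2 * q * (D * ((∑ l, (- β l y) : ℤ) : ℂ)) =
        ((2 * q * D * β0 y : ℤ) : ℂ) := by
      rw [← h1, hT, Finset.mul_sum]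
      have e1 : (D : ℂ) * ((∑ l, (- β l y) : ℤ) : ℂ) =
          ∑ x, ∑ l, KK χ2 y x * ((κ x * z x l : ℤ) : ℂ) := by
        rw [Finset.sum_comm, Finset.sum_congr rfl (fun l _ => hbT l y)]
        push_cast
        rw [Finset.mul_sum]
      rw [e1, Finset.mul_sum, ← Finset.sum_sub_distrib]
      apply Finset.sum_congr rfl; intro x _
      rw [← Finset.mul_sum, ← Int.cast_sum, ← Finset.mul_sum]
      push_cast
      ring
    have h3 : (q : ℂ) * T = ((2 * D * B : ℤ) : ℂ) := by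
      have : (q : ℂ) * ((q : ℂ) * T) = q * ((2 * D * B : ℤ) : ℂ) := by
        have e : (q : ℂ) * ((q : ℂ) * T) = (q : ℂ) ^ 2 * T := by ring
        rw [e]
        have h4 : (q : ℂ) ^ 2 * T = ((2 * q * D * β0 y : ℤ) : ℂ) +
          2 * q * (D * ((∑ l, (- β l y) : ℤ) : ℂ)) := by rw [← h2]; ring
        rw [h4, hB]
        push_cast
        ring
      exact mul_left_cancel₀ hqC this
    have hTint : IsIntegral ℤ T := IsIntegral.sum _ (fun x _ =>
      (int_KK' χ2 y x).mul (isIntegral_algebraMap (R := ℤ) (A := ℂ) (x := κ x)))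
    obtain ⟨w, hw⟩ := R848.SIC.int_of_integral T hTint ((2 * D * B : ℤ) / (q : ℤ) : ℚ) (by
      push_cast
      rw [eq_div_iff hqC, mul_comm T, h3]
      push_cast; ring)
    have h4 : (q : ℤ) * w = 2 * D * B := by
      rw [hw] at h3
      exact_mod_cast h3
    have h5 : (q : ℤ) ∣ B := by
      have h6 : (q : ℤ) ∣ (2 * D) * B := ⟨w, h4.symm⟩
      exact (hcoq2.mul_right hcoqD).dvd_of_dvd_mul_left h6
    obtain ⟨k', hk'⟩ := h5
    refine ⟨k', fun _ => ⟨?_, ?_, hk'.symm⟩⟩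
    · -- size
      have hup : ∑ l, (- β l y) ≤ q + 1 := by
        have : ∑ l, (- β l y) ≤ ∑ _l : Option (ZMod q), (1 : ℤ) := by
          apply Finset.sum_le_sum; intro l _
          rcases hβ3 l y with h | h | h <;> rw [h] <;> norm_num
        rw [sum_const, card_univ, hcardL] at this
        simpa using this
      have hlo : -(q + 1 : ℤ) ≤ ∑ l, (- β l y) := by
        have : ∑ _l : Option (ZMod q), (-1 : ℤ) ≤ ∑ l, (- β l y) := by
          apply Finset.sum_le_sum; intro l _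
          rcases hβ3 l y with h | h | h <;> rw [h] <;> norm_num
        rw [sum_const, card_univ, hcardL] at this
        push_cast at this
        simpa using this
      have hq3' : (3 : ℤ) ≤ q := by exact_mod_cast hq3
      have hlt : k' < 2 := by
        by_contra hcon
        push Not at hcon
        rcases h0 with h | h | h <;> nlinarith
      have hgt : -2 < k' := by
        by_contra hcon
        push Not at hcon
        rcases h0 with h | h | h <;> nlinarith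
      omega
    · rw [hw]
      have : (q : ℤ) * w = q * (2 * D * k') := by rw [h4, hk']; ring
      rw [mul_left_cancel₀ hq0 this]
  choose k' hk' using hk
  -- invariance of κ
  have hκu : ∀ u : ZMod D, IsUnit u → ∀ s r, κ (u * s, u * r) = κ (s, r) := by
    intro u hu s r
    have h1 := hκC (u * s, u * r)
    have h2 := hκC (s, r)
    have e1 : ∀ l, cc (g (u * s, u * r)) l = cc (g (s, r)) l := by
      intro l
      simp only [cc, hg]
      exact hu2 u hu _ _ _ _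
    have e2 : g (u * s, u * r) 0 0 = g (s, r) 0 0 := by
      simp only [hg]
      exact hu2 u hu _ _ _ _
    rw [Finset.sum_congr rfl (fun l _ => e1 l), e2, h2] at h1
    exact (mul_left_cancel₀ hq0 h1).symm
  have hIH := IH (fun s r => κ (s, r)) ⟨fun s r => hκ _, hκu, by
    intro x y hxy
    obtain ⟨h1, h2, -⟩ := hk' (x, y) (fun h => hxy ⟨congrArg Prod.fst h, congrArg Prod.snd h⟩)
    refine ⟨k' (x, y), h1, ?_⟩
    rw [← h2, Fintype.sum_prod_type]
    rfl⟩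
  have hS : ∑ s, ∑ r, κ (s, r) = ∑ x, κ x := (Fintype.sum_prod_type κ).symm
  have hIH' : ∃ σ : ℤ, (σ = 1 ∨ σ = -1) ∧
      (∑ x, κ x = σ * (D : ℤ) ^ 2 ∨ ∑ x, κ x = σ * ((D : ℤ) * (D - 2))) := by
    rw [← hS]; exact hIH
  have hfin := core D q hD hq3 hDq hK hcardL κ hκ (fun l x => z x l) (fun l x => hz x l)
    (fun x => hz1 x) (fun l y => - β l y)
    (fun l y => by rcases hβ3 l y with h | h | h <;> rw [h] <;> norm_num)
    hbT k' (fun y hy => (hk' y hy).1) (fun y hy => (hk' y hy).2.1) β0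
    (fun y hy => (hβ0 y hy).1) (fun y hy => (hk' y hy).2.2) hIH'
  have htot : ∑ s, ∑ r, ∑ a, ∑ b, F a s b r =
      ∑ x, κ x * ((q : ℤ) ^ 2 - 2 * q * ∑ l, z x l) := by
    rw [Fintype.sum_prod_type]
    apply Finset.sum_congr rfl; intro s _
    apply Finset.sum_congr rfl; intro r _
    exact hplane (s, r)
  rw [htot]
  exact hfin

end R848.SICP
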