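import Mathlib
import Pool.Agent.R848.SIC.Main
import Pool.Agent.R848.SICP.Step

/-! Unit-invariant sign functions on `(ZMod D)^2`, `D` odd squarefree, with flat transform. -/

set_option autoImplicit false

namespace R848.SICP

open Finset
open scoped BigOperators ComplexConjugate

section crt

variable {p D : ℕ}

theorem crt_char (hco : p.Coprime D) [NeZero (p * D)] (χ : AddChar (ZMod (p * D)) ℂ)
    (hχ : χ.IsPrimitive) :
    ∃ (χ1 : AddChar (ZMod p) ℂ) (χ2 : AddChar (ZMod D) ℂ), χ1.IsPrimitive ∧ χ2.IsPrimitive ∧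
      ∀ a s, χ ((ZMod.chineseRemainder hco).symm (a, s)) = χ1 a * χ2 s := by
  set E := ZMod.chineseRemainder hco with hE
  set χ1 : AddChar (ZMod p) ℂ := χ.compAddMonoidHom
    ((E.symm : _ →+ _).comp (AddMonoidHom.inl (ZMod p) (ZMod D))) with hχ1
  set χ2 : AddChar (ZMod D) ℂ := χ.compAddMonoidHom
    ((E.symm : _ →+ _).comp (AddMonoidHom.inr (ZMod p) (ZMod D))) with hχ2
  have e1 : ∀ a, χ1 a = χ (E.symm (a, 0)) := fun a => rfl
  have e2 : ∀ s, χ2 s = χ (E.symm (0, s)) := fun a => rfl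
  have e3 : ∀ a s, χ (E.symm (a, s)) = χ1 a * χ2 s := by
    intro a s
    rw [e1, e2, ← AddChar.map_add_eq_mul, ← map_add]
    simp
  have hp1 : χ1.IsPrimitive := by
    intro a ha
    have hα : E.symm (a, 0) ≠ 0 := by
      intro h
      rw [map_eq_zero_iff E.symm E.symm.injective] at h
      exact ha (Prod.ext_iff.1 h).1
    obtain ⟨z, hz⟩ := AddChar.ne_one_iff.1 (hχ hα)
    rw [AddChar.mulShift_apply] at hz
    refine AddChar.ne_one_iff.2 ⟨(E z).1, ?_⟩
    rw [AddChar.mulShift_apply, e1]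
    have : E.symm (a, 0) * z = E.symm (a * (E z).1, 0) := by
      apply E.injective
      rw [map_mul, E.apply_symm_apply, E.apply_symm_apply]
      ext <;> simp
    rwa [← this]
  have hp2 : χ2.IsPrimitive := by
    intro a ha
    have hα : E.symm (0, a) ≠ 0 := by
      intro h
      rw [map_eq_zero_iff E.symm E.symm.injective] at h
      exact ha (Prod.ext_iff.1 h).2
    obtain ⟨z, hz⟩ := AddChar.ne_one_iff.1 (hχ hα)
    rw [AddChar.mulShift_apply] at hz
    refine AddChar.ne_one_iff.2 ⟨(E z).2, ?_⟩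
    rw [AddChar.mulShift_apply, e2]
    have : E.symm (0, a) * z = E.symm (0, a * (E z).2) := by
      apply E.injective
      rw [map_mul, E.apply_symm_apply, E.apply_symm_apply]
      ext <;> simp
    rwa [← this]
  exact ⟨χ1, χ2, hp1, hp2, e3⟩

theorem crt_sum (hco : p.Coprime D) [NeZero (p * D)] [NeZero p] [NeZero D]
    (χ : AddChar (ZMod (p * D)) ℂ)
    (χ1 : AddChar (ZMod p) ℂ) (χ2 : AddChar (ZMod D) ℂ)
    (h : ∀ a s, χ ((ZMod.chineseRemainder hco).symm (a, s)) = χ1 a * χ2 s)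
    (f : ZMod (p * D) → ZMod (p * D) → ℂ) (x1 y1 : ZMod p) (x2 y2 : ZMod D) :
    ∑ c, ∑ b, χ (b * (ZMod.chineseRemainder hco).symm (x1, x2) -
        c * (ZMod.chineseRemainder hco).symm (y1, y2)) * f c b =
      ∑ s, ∑ r, ∑ a, ∑ b, (χ1 (b * x1 - a * y1) * χ2 (r * x2 - s * y2)) *
        f ((ZMod.chineseRemainder hco).symm (a, s)) ((ZMod.chineseRemainder hco).symm (b, r)) := by
  set E := ZMod.chineseRemainder hco with hE
  rw [R848.SIC.sum_crt E.toEquiv
    (fun c => ∑ b, χ (b * E.symm (x1, x2) - c * E.symm (y1, y2)) * f c b)]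
  have h5 : ∀ (a : ZMod p) (s : ZMod D),
      ∑ b, χ (b * E.symm (x1, x2) - E.symm (a, s) * E.symm (y1, y2)) * f (E.symm (a, s)) b =
      ∑ b, ∑ r, χ1 (b * x1 - a * y1) * χ2 (r * x2 - s * y2) *
        f (E.symm (a, s)) (E.symm (b, r)) := by
    intro a s
    rw [R848.SIC.sum_crt E.toEquiv]
    apply Finset.sum_congr rfl
    intro b _
    apply Finset.sum_congr rfl
    intro r _
    rw [← h]
    congr 2
    change (E.symm (b, r) * E.symm (x1, x2) - E.symm (a, s) * E.symm (y1, y2)) = _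
    rw [← map_mul, ← map_mul, ← map_sub]
    rfl
  have h6 : ∑ a, ∑ s, ∑ b, χ (b * E.symm (x1, x2) - E.toEquiv.symm (a, s) * E.symm (y1, y2)) *
      f (E.toEquiv.symm (a, s)) b = ∑ a, ∑ s, ∑ b, ∑ r,
        χ1 (b * x1 - a * y1) * χ2 (r * x2 - s * y2) *
        f (E.symm (a, s)) (E.symm (b, r)) := by
    apply Finset.sum_congr rfl
    intro a _
    apply Finset.sum_congr rfl
    intro s _
    exact h5 a s
  rw [h6]
  exact (R848.SIC.sum_reorder (fun a s b r => χ1 (b * x1 - a * y1) * χ2 (r * x2 - s * y2) *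
        f (E.symm (a, s)) (E.symm (b, r)))).symm

theorem crt_sum' (hco : p.Coprime D) [NeZero (p * D)] [NeZero p] [NeZero D]
    (f : ZMod (p * D) → ZMod (p * D) → ℤ) :
    ∑ c, ∑ b, f c b = ∑ s, ∑ r, ∑ a, ∑ b,
        f ((ZMod.chineseRemainder hco).symm (a, s)) ((ZMod.chineseRemainder hco).symm (b, r)) := by
  set E := ZMod.chineseRemainder hco with hE
  rw [R848.SIC.sum_crt E.toEquiv (fun c => ∑ b, f c b)]
  have h6 : ∑ a, ∑ s, ∑ b, f (E.toEquiv.symm (a, s)) b =
      ∑ a, ∑ s, ∑ b, ∑ r, f (E.symm (a, s)) (E.symm (b, r)) := by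
    apply Finset.sum_congr rfl
    intro a _
    apply Finset.sum_congr rfl
    intro s _
    rw [R848.SIC.sum_crt E.toEquiv]
    rfl
  rw [h6]
  exact (R848.SIC.sum_reorder (fun a s b r => f (E.symm (a, s)) (E.symm (b, r)))).symm

theorem crt_unit (hco : p.Coprime D) {u : ZMod p} {v : ZMod D} (hu : IsUnit u) (hv : IsUnit v) :
    IsUnit ((ZMod.chineseRemainder hco).symm (u, v)) := by
  have : IsUnit (u, v) := by
    rw [Prod.isUnit_iff]
    exact ⟨hu, hv⟩
  exact this.map (ZMod.chineseRemainder hco).symm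

end crt

theorem claim : ∀ D : ℕ, Odd D → Squarefree D → ∀ [NeZero D] (χ : AddChar (ZMod D) ℂ),
    χ.IsPrimitive → ∀ κ : ZMod D → ZMod D → ℤ, Flat χ κ → Concl D (∑ s, ∑ r, κ s r) := by
  intro D
  induction D using Nat.strong_induction_on with
  | _ D ih =>
  intro hodd hsq _ χ hχ κ hκ
  by_cases hD1 : D = 1
  · subst hD1
    have h1 : ∑ s, ∑ r, κ s r = κ 0 0 := by
      rw [Fintype.sum_unique, Fintype.sum_unique]
      rfl
    rw [h1]
    refine ⟨κ 0 0, hκ.1 0 0, Or.inl ?_⟩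
    simp
  -- choose a prime
  have hD0 : D ≠ 0 := hodd.pos.ne'
  have hq : ∃ q, q.Prime ∧ q ∣ D ∧ 3 ≤ q ∧ (D = q ∨ 5 ≤ q) := by
    have hodd' : ∀ q, q.Prime → q ∣ D → 3 ≤ q := by
      intro q hq hqD
      have h2 := hq.two_le
      have : q ≠ 2 := by
        rintro rfl
        exact (Nat.not_even_iff_odd.2 hodd) (even_iff_two_dvd.2 hqD)
      omega
    by_cases h5 : ∃ q, q.Prime ∧ q ∣ D ∧ 5 ≤ q
    · obtain ⟨q, hq, hqD, h⟩ := h5
      exact ⟨q, hq, hqD, by omega, Or.inr h⟩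
    · push Not at h5
      have hall : ∀ q, q.Prime → q ∣ D → q = 3 := by
        intro q hq hqD
        have h1 := hodd' q hq hqD
        have h2 := h5 q hq hqD
        have h3 : q ≠ 4 := by rintro rfl; exact absurd hq (by decide)
        omega
      obtain ⟨q, hq, hqD⟩ := Nat.exists_prime_and_dvd hD1
      have hq3 := hall q hq hqD
      subst hq3
      refine ⟨3, hq, hqD, le_rfl, Or.inl ?_⟩
      have h1 : D = 3 ^ D.primeFactorsList.length :=
        Nat.eq_prime_pow_of_unique_prime_dvd hD0 (fun {d} h h' => hall d h h')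
      rw [h1] at hsq
      rcases hsq.eq_zero_or_one_of_pow_of_not_isUnit (by norm_num) with h | h
      · rw [h, pow_zero] at h1
        exact absurd h1 hD1
      · rw [h, pow_one] at h1
        exact h1
  obtain ⟨q, hq, ⟨D', rfl⟩, hq3, hq5⟩ := hq
  have : Fact q.Prime := ⟨hq⟩
  have hD'0 : D' ≠ 0 := by rintro rfl; exact hD0 (mul_zero _)
  have : NeZero D' := ⟨hD'0⟩
  have hco : q.Coprime D' := Nat.coprime_of_squarefree_mul hsq
  have hodd' : Odd D' := (Nat.odd_mul.1 hodd).2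
  have hDq : D' = 1 ∨ 5 ≤ q := by
    rcases hq5 with h | h
    · left
      have : q * D' = q * 1 := by rw [h, mul_one]
      exact Nat.eq_of_mul_eq_mul_left hq.pos this
    · exact Or.inr h
  have hlt : D' < q * D' := by
    have : 1 < q := hq.one_lt
    have : 0 < D' := Nat.pos_of_ne_zero hD'0
    nlinarith
  obtain ⟨χ1, χ2, h1, h2, h3⟩ := crt_char hco χ hχ
  set E := ZMod.chineseRemainder hco with hE
  obtain ⟨hκ1, hκ2, hκ3⟩ := hκ
  have hstep := step hq3 hodd' hco hDq χ1 h1 χ2 h2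
    (fun a s b r => κ (E.symm (a, s)) (E.symm (b, r)))
    (fun a s b r => hκ1 _ _)
    (by
      intro k hk a s b r
      have hu : IsUnit (E.symm (k, (1 : ZMod D'))) :=
        crt_unit hco (isUnit_iff_ne_zero.2 hk) isUnit_one
      have := hκ2 _ hu (E.symm (a, s)) (E.symm (b, r))
      rwa [← map_mul, ← map_mul, Prod.mk_mul_mk, Prod.mk_mul_mk, one_mul, one_mul] at this)
    (by
      intro u hu a s b r
      have hu' : IsUnit (E.symm ((1 : ZMod q), u)) := crt_unit hco isUnit_one hu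
      have := hκ2 _ hu' (E.symm (a, s)) (E.symm (b, r))
      rwa [← map_mul, ← map_mul, Prod.mk_mul_mk, Prod.mk_mul_mk, one_mul, one_mul] at this)
    (by
      intro x1 x2 y1 y2 hne
      obtain ⟨β, hβ, h⟩ := hκ3 (E.symm (x1, x2)) (E.symm (y1, y2)) (by
        rintro ⟨h4, h5⟩
        rw [map_eq_zero_iff E.symm E.symm.injective] at h4 h5
        exact hne ⟨(Prod.ext_iff.1 h4).1, (Prod.ext_iff.1 h4).2, (Prod.ext_iff.1 h5).1,
          (Prod.ext_iff.1 h5).2⟩)
      refine ⟨β, hβ, ?_⟩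
      rw [crt_sum hco χ χ1 χ2 h3 (fun c b => (κ c b : ℂ)) x1 y1 x2 y2] at h
      rw [h]
      push_cast
      ring)
    (fun κ' hκ' => ih D' hlt hodd' (hsq.squarefree_of_dvd (Dvd.intro_left _ rfl)) χ2 h2 κ' hκ')
  rw [crt_sum' hco]
  obtain ⟨σ, hσ, h⟩ := hstep
  refine ⟨σ, hσ, ?_⟩
  push_cast
  exact h

end R848.SICP
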