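import Mathlib
import Pool.Agent.R848.SICP.Claim

/-! Self-dual functions on `(ZMod m)^2`, `m` odd squarefree. -/

set_option autoImplicit false

namespace R848.SICP

open Finset Polynomial
open scoped BigOperators ComplexConjugate

theorem prim_one {d : ℕ} [NeZero d] (χ : AddChar (ZMod d) ℂ) (hχ : χ.IsPrimitive) :
    IsPrimitiveRoot (χ 1) d := by
  refine ⟨?_, ?_⟩
  · rw [← AddChar.map_nsmul_eq_pow, nsmul_eq_mul, ZMod.natCast_self, zero_mul,
      AddChar.map_zero_eq_one]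
  · intro l hl
    rw [← ZMod.natCast_eq_zero_iff]
    by_contra hne
    obtain ⟨x, hx⟩ := AddChar.ne_one_iff.1 (hχ hne)
    apply hx
    rw [AddChar.mulShift_apply]
    have : (l : ZMod d) * x = (x.val * l : ℕ) • (1 : ZMod d) := by
      rw [nsmul_eq_mul, mul_one]; push_cast; rw [ZMod.natCast_zmod_val]; ring
    rw [this, AddChar.map_nsmul_eq_pow, mul_comm, pow_mul, hl, one_pow]

theorem char_pow {d : ℕ} [NeZero d] (χ : AddChar (ZMod d) ℂ) (z : ZMod d) (k : ℕ) :
    (χ 1) ^ (k * z.val) = χ ((k : ZMod d) * z) := by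
  rw [← AddChar.map_nsmul_eq_pow]
  congr 1
  rw [nsmul_eq_mul]
  push_cast
  rw [ZMod.natCast_zmod_val, mul_one]

theorem unit_inv {d : ℕ} [NeZero d] (χ : AddChar (ZMod d) ℂ) (hχ : χ.IsPrimitive)
    (G : ZMod d → ZMod d → ℤ) (K : ℤ) (hK : K ≠ 0)
    (hdual : ∀ x y, ∑ c, ∑ b, χ (b * x - c * y) * (G c b : ℂ) = K * G x y)
    (u : ZMod d) (hu : IsUnit u) (x y : ZMod d) : G (u * x) (u * y) = G x y := by
  set ζ : ℂ := χ (1 : ZMod d) with hζ
  have hprim : IsPrimitiveRoot ζ d := prim_one χ hχ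
  have hdpos : 0 < d := Nat.pos_of_ne_zero (NeZero.ne d)
  set P : ℤ[X] := (∑ c, ∑ b, C (G c b) * X ^ (b * x - c * y : ZMod d).val) - C (K * G x y) with hP
  have hval : ∀ k : ℕ, aeval (ζ ^ k) P =
      (∑ c, ∑ b, χ ((k : ZMod d) * (b * x - c * y)) * (G c b : ℂ)) - K * G x y := by
    intro k
    rw [hP, map_sub, map_sum]
    congr 1
    · apply Finset.sum_congr rfl
      intro c _
      rw [map_sum]
      apply Finset.sum_congr rfl
      intro b _
      rw [map_mul, map_pow, aeval_X, aeval_C, ← pow_mul, hζ, char_pow]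
      simp [mul_comm]
    · rw [aeval_C]; simp
  have h1 : aeval ζ P = 0 := by
    have := hval 1
    rw [pow_one] at this
    rw [this]
    simp only [Nat.cast_one, one_mul]
    rw [hdual, sub_self]
  have h2 : minpoly ℤ ζ ∣ P := minpoly.isIntegrallyClosed_dvd (hprim.isIntegral hdpos) h1
  have hcop : Nat.Coprime u.val d := by
    have : IsUnit ((u.val : ℕ) : ZMod d) := by rw [ZMod.natCast_zmod_val]; exact hu
    exact (ZMod.isUnit_iff_coprime _ _).1 this
  have h3 : aeval (ζ ^ u.val) P = 0 := by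
    obtain ⟨R, hR⟩ := h2
    rw [hprim.minpoly_eq_pow_coprime hcop] at hR
    rw [hR, map_mul, minpoly.aeval, zero_mul]
  rw [hval, ZMod.natCast_zmod_val] at h3
  have h4 := hdual (u * x) (u * y)
  have h5 : ∑ c, ∑ b, χ (u * (b * x - c * y)) * (G c b : ℂ) =
      ∑ c, ∑ b, χ (b * (u * x) - c * (u * y)) * (G c b : ℂ) := by
    apply Finset.sum_congr rfl
    intro c _
    apply Finset.sum_congr rfl
    intro b _
    congr 2
    ring
  rw [h5, h4] at h3
  have h6 : (K : ℂ) * (G (u * x) (u * y) - G x y) = 0 := by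
    rw [mul_sub]; exact h3
  have h7 : ((G (u * x) (u * y) : ℂ) - G x y) = 0 :=
    (mul_eq_zero.1 h6).resolve_left (by exact_mod_cast hK)
  have h8 : (G (u * x) (u * y) : ℂ) = G x y := sub_eq_zero.1 h7
  exact_mod_cast h8

theorem aligned_prime {p D : ℕ} (hp : p.Prime) (hp3 : 3 ≤ p) (hD : Odd D) (hsq : Squarefree D)
    (hco : p.Coprime D) [NeZero (p * D)] (χ : AddChar (ZMod (p * D)) ℂ) (hχ : χ.IsPrimitive)
    (n : ℕ) (hn2 : 2 ≤ n) (hn : (p : ℤ) ∣ (n : ℤ) ^ 2 - 1)
    (ε : ℤ) (hε : ε = 1 ∨ ε = -1)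
    (G : ZMod (p * D) → ZMod (p * D) → ℤ)
    (h1 : ∀ c b, ¬ (c = 0 ∧ b = 0) → G c b = 1 ∨ G c b = -1)
    (h2 : G 0 0 = n)
    (hdual : ∀ x y, ∑ c, ∑ b, χ (b * x - c * y) * (G c b : ℂ) =
      ((ε * (p * D : ℕ) : ℤ) : ℂ) * G x y) :
    ∃ η : ℤ, (η = 1 ∨ η = -1) ∧ ((n : ℤ) = p * D + η ∨ (n : ℤ) = p * D + η - 2 * p) := by
  classical
  have hne : p * D ≠ 0 := NeZero.ne _
  have : Fact p.Prime := ⟨hp⟩
  have hD0 : D ≠ 0 := hD.pos.ne'
  have : NeZero D := ⟨hD0⟩
  have hK : (ε * (p * D : ℕ) : ℤ) ≠ 0 := by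
    apply mul_ne_zero
    · rcases hε with h | h <;> rw [h] <;> norm_num
    · exact_mod_cast hne
  have huinv := unit_inv χ hχ G _ hK hdual
  obtain ⟨χ1, χ2, hp1, hp2, h3⟩ := crt_char hco χ hχ
  set E := ZMod.chineseRemainder hco with hE
  set F : ZMod p → ZMod D → ZMod p → ZMod D → ℤ :=
    fun a s b r => G (E.symm (a, s)) (E.symm (b, r)) with hF
  have hzero : ∀ a s, E.symm (a, s) = 0 ↔ a = 0 ∧ s = 0 := by
    intro a s
    rw [map_eq_zero_iff E.symm E.symm.injective, Prod.ext_iff]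
    rfl
  have hF1 : ∀ a s b r, ¬ (a = 0 ∧ s = 0 ∧ b = 0 ∧ r = 0) → F a s b r = 1 ∨ F a s b r = -1 := by
    intro a s b r h
    apply h1
    rw [hzero, hzero]
    rintro ⟨⟨h4, h5⟩, h6, h7⟩
    exact h ⟨h4, h5, h6, h7⟩
  have hF0 : F 0 0 0 0 = n := by
    have : E.symm ((0 : ZMod p), (0 : ZMod D)) = 0 := map_zero _
    simp only [hF, this]
    exact h2
  have hFu : ∀ (u : ZMod p) (v : ZMod D), IsUnit u → IsUnit v → ∀ a s b r,
      F (u * a) (v * s) (u * b) (v * r) = F a s b r := by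
    intro u v hu hv a s b r
    have := huinv _ (crt_unit hco hu hv) (E.symm (a, s)) (E.symm (b, r))
    rwa [← map_mul, ← map_mul, Prod.mk_mul_mk, Prod.mk_mul_mk] at this
  have hdual' : ∀ x1 x2 y1 y2, ∑ s, ∑ r, ∑ a, ∑ b,
      (χ1 (b * x1 - a * y1) * χ2 (r * x2 - s * y2)) * (F a s b r : ℂ) =
        ((ε * (p * D : ℕ) : ℤ) : ℂ) * F x1 x2 y1 y2 := by
    intro x1 x2 y1 y2
    have := hdual (E.symm (x1, x2)) (E.symm (y1, y2))
    rw [crt_sum hco χ χ1 χ2 h3 (fun c b => (G c b : ℂ)) x1 y1 x2 y2] at this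
    exact this
  have hpz : (p : ℤ) ≠ 0 := by exact_mod_cast hp.ne_zero
  have hpC : (p : ℂ) ≠ 0 := by exact_mod_cast hp.ne_zero
  have hDz : (D : ℤ) ≠ 0 := by exact_mod_cast hD0
  have hcopD : IsCoprime (p : ℤ) (D : ℤ) := Nat.isCoprime_iff_coprime.2 hco
  have hεu : IsCoprime (p : ℤ) ε := by
    rcases hε with h | h <;> rw [h]
    · exact isCoprime_one_right
    · exact isCoprime_one_right.neg_right
  -- slices in the other direction
  have hgu : ∀ x2 y2, ∀ k : ZMod p, k ≠ 0 → ∀ a b,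
      F (k * a) x2 (k * b) y2 = F a x2 b y2 := by
    intro x2 y2 k hk a b
    have := hFu k 1 (isUnit_iff_ne_zero.2 hk) isUnit_one a x2 b y2
    rwa [one_mul, one_mul] at this
  have hline : ∀ (l : Option (ZMod p)) (x2 y2 : ZMod D),
      (p : ℂ) * ∑ s, ∑ r, χ2 (r * x2 - s * y2) * (F (rep l).1 s (rep l).2 r : ℂ) =
        ((ε * D * (F 0 x2 0 y2 - ∑ l', cc (fun a b => F a x2 b y2) l' +
          p * cc (fun a b => F a x2 b y2) l) : ℤ) : ℂ) := by
    intro l x2 y2
    have e1 : ∑ x1, ∑ y1, χ1 (-((rep l).2 * x1 - (rep l).1 * y1)) *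
        (∑ s, ∑ r, ∑ a, ∑ b,
          (χ1 (b * x1 - a * y1) * χ2 (r * x2 - s * y2)) * (F a s b r : ℂ)) =
        (p : ℂ) ^ 2 * ∑ s, ∑ r, χ2 (r * x2 - s * y2) * (F (rep l).1 s (rep l).2 r : ℂ) := by
      have e2 : ∀ x1 y1 : ZMod p, χ1 (-((rep l).2 * x1 - (rep l).1 * y1)) *
        (∑ s, ∑ r, ∑ a, ∑ b,
          (χ1 (b * x1 - a * y1) * χ2 (r * x2 - s * y2)) * (F a s b r : ℂ)) =
        ∑ s, ∑ r, χ2 (r * x2 - s * y2) * (χ1 (-((rep l).2 * x1 - (rep l).1 * y1)) *
          (∑ a, ∑ b, χ1 (b * x1 - a * y1) * (F a s b r : ℂ))) := by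
        intro x1 y1
        rw [Finset.mul_sum]
        apply Finset.sum_congr rfl; intro s _
        rw [Finset.mul_sum]
        apply Finset.sum_congr rfl; intro r _
        rw [Finset.mul_sum, Finset.mul_sum, Finset.mul_sum]
        apply Finset.sum_congr rfl; intro a _
        rw [Finset.mul_sum, Finset.mul_sum, Finset.mul_sum]
        apply Finset.sum_congr rfl; intro b _
        ring
      have e3 : ∀ s r, ∑ x1, ∑ y1, χ2 (r * x2 - s * y2) *
          (χ1 (-((rep l).2 * x1 - (rep l).1 * y1)) *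
          (∑ a, ∑ b, χ1 (b * x1 - a * y1) * (F a s b r : ℂ))) =
          χ2 (r * x2 - s * y2) * ((p : ℂ) ^ 2 * (F (rep l).1 s (rep l).2 r : ℂ)) := by
        intro s r
        have := R848.SIC.fourier_inv χ1 hp1 (fun a b => (F a s b r : ℂ)) (rep l).1 (rep l).2
        rw [ZMod.card] at this
        rw [← this, Finset.mul_sum]
        apply Finset.sum_congr rfl; intro x1 _
        rw [Finset.mul_sum]
      calc _ = ∑ x1, ∑ y1, ∑ s, ∑ r, χ2 (r * x2 - s * y2) *
            (χ1 (-((rep l).2 * x1 - (rep l).1 * y1)) *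
            (∑ a, ∑ b, χ1 (b * x1 - a * y1) * (F a s b r : ℂ))) := by
              apply Finset.sum_congr rfl; intro x1 _
              apply Finset.sum_congr rfl; intro y1 _
              exact e2 x1 y1
        _ = ∑ s, ∑ r, ∑ x1, ∑ y1, χ2 (r * x2 - s * y2) *
            (χ1 (-((rep l).2 * x1 - (rep l).1 * y1)) *
            (∑ a, ∑ b, χ1 (b * x1 - a * y1) * (F a s b r : ℂ))) := by
              have sw : ∀ (f : ZMod p → ZMod p → ZMod D → ZMod D → ℂ),
                  ∑ x1, ∑ y1, ∑ s, ∑ r, f x1 y1 s r = ∑ s, ∑ r, ∑ x1, ∑ y1, f x1 y1 s r := by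
                intro f
                calc ∑ x1, ∑ y1, ∑ s, ∑ r, f x1 y1 s r
                    = ∑ x1, ∑ s, ∑ y1, ∑ r, f x1 y1 s r :=
                      Finset.sum_congr rfl (fun _ _ => Finset.sum_comm)
                  _ = ∑ s, ∑ x1, ∑ y1, ∑ r, f x1 y1 s r := Finset.sum_comm
                  _ = ∑ s, ∑ x1, ∑ r, ∑ y1, f x1 y1 s r :=
                      Finset.sum_congr rfl (fun _ _ =>
                        Finset.sum_congr rfl (fun _ _ => Finset.sum_comm))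
                  _ = ∑ s, ∑ r, ∑ x1, ∑ y1, f x1 y1 s r :=
                      Finset.sum_congr rfl (fun _ _ => Finset.sum_comm)
              exact sw _
        _ = ∑ s, ∑ r, χ2 (r * x2 - s * y2) * ((p : ℂ) ^ 2 * (F (rep l).1 s (rep l).2 r : ℂ)) := by
              apply Finset.sum_congr rfl; intro s _
              apply Finset.sum_congr rfl; intro r _
              exact e3 s r
        _ = _ := by
              rw [Finset.mul_sum]
              apply Finset.sum_congr rfl; intro s _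
              rw [Finset.mul_sum]
              apply Finset.sum_congr rfl; intro r _
              ring
    have e4 : ∑ x1, ∑ y1, χ1 (-((rep l).2 * x1 - (rep l).1 * y1)) *
        (∑ s, ∑ r, ∑ a, ∑ b,
          (χ1 (b * x1 - a * y1) * χ2 (r * x2 - s * y2)) * (F a s b r : ℂ)) =
        ((ε * (p * D : ℕ) : ℤ) : ℂ) * ((F 0 x2 0 y2 - ∑ l', cc (fun a b => F a x2 b y2) l' +
          p * cc (fun a b => F a x2 b y2) l : ℤ) : ℂ) := by
      rw [← sum_plane_char (fun a b => F a x2 b y2) χ1 hp1 (hgu x2 y2) l, Finset.mul_sum]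
      apply Finset.sum_congr rfl; intro x1 _
      rw [Finset.mul_sum]
      apply Finset.sum_congr rfl; intro y1 _
      rw [hdual']
      have : -((rep l).2 * x1 - (rep l).1 * y1) = y1 * (rep l).1 - x1 * (rep l).2 := by ring
      rw [this]
      ring
    rw [e1] at e4
    have e5 : (p : ℂ) * ((p : ℂ) * ∑ s, ∑ r, χ2 (r * x2 - s * y2) *
        (F (rep l).1 s (rep l).2 r : ℂ)) = p * ((ε * D * (F 0 x2 0 y2 -
          ∑ l', cc (fun a b => F a x2 b y2) l' + p * cc (fun a b => F a x2 b y2) l) : ℤ) : ℂ) := by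
      rw [← mul_assoc, ← pow_two, e4]
      push_cast
      ring
    exact mul_left_cancel₀ hpC e5
  -- divisibility
  have hdvd : ∀ (l : Option (ZMod p)) (x2 y2 : ZMod D),
      (p : ℤ) ∣ F 0 x2 0 y2 - ∑ l', cc (fun a b => F a x2 b y2) l' := by
    intro l x2 y2
    set T : ℂ := ∑ s, ∑ r, χ2 (r * x2 - s * y2) * (F (rep l).1 s (rep l).2 r : ℂ) with hT
    have hTint : IsIntegral ℤ T := IsIntegral.sum _ (fun s _ => IsIntegral.sum _ (fun r _ =>
      (R848.SIC.char_integral χ2 _).mul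
        (isIntegral_algebraMap (R := ℤ) (A := ℂ) (x := F (rep l).1 s (rep l).2 r))))
    have h4 := hline l x2 y2
    rw [← hT] at h4
    obtain ⟨w, hw⟩ := R848.SIC.int_of_integral T hTint
      (((ε * D * (F 0 x2 0 y2 - ∑ l', cc (fun a b => F a x2 b y2) l' +
          p * cc (fun a b => F a x2 b y2) l) : ℤ) : ℚ) / (p : ℤ)) (by
      push_cast
      rw [eq_div_iff hpC, mul_comm T, h4]
      push_cast; ring)
    rw [hw] at h4
    have h5 : (p : ℤ) * w = ε * D * (F 0 x2 0 y2 - ∑ l', cc (fun a b => F a x2 b y2) l' +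
          p * cc (fun a b => F a x2 b y2) l) := by exact_mod_cast h4
    have h6 : (p : ℤ) ∣ (ε * D) * (F 0 x2 0 y2 - ∑ l', cc (fun a b => F a x2 b y2) l' +
          p * cc (fun a b => F a x2 b y2) l) := ⟨w, h5.symm⟩
    have h7 := (hεu.mul_right hcopD).dvd_of_dvd_mul_left h6
    exact (Int.dvd_add_left (Dvd.intro _ rfl)).1 h7
  -- the residue of `n`
  have hη : ∃ η ν : ℤ, (η = 1 ∨ η = -1) ∧ (n : ℤ) = η + p * ν := by
    have h4 : (p : ℤ) ∣ ((n : ℤ) - 1) * (n + 1) := by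
      have : ((n : ℤ) - 1) * (n + 1) = (n : ℤ) ^ 2 - 1 := by ring
      rwa [this]
    rcases (Nat.prime_iff_prime_int.1 hp).dvd_or_dvd h4 with ⟨v, hv⟩ | ⟨v, hv⟩
    · exact ⟨1, v, Or.inl rfl, by linarith⟩
    · exact ⟨-1, v, Or.inr rfl, by linarith⟩
  obtain ⟨η, ν, hη, hnη⟩ := hη
  -- values on the lines at the origin
  have hc0 : ∀ l, cc (fun a b => F a 0 b 0) l = 1 ∨ cc (fun a b => F a 0 b 0) l = -1 := by
    intro l
    apply hF1
    rintro ⟨h4, -, h5, -⟩
    exact rep_ne l (Prod.ext h4 h5)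
  obtain ⟨κ, hκ, hκC, z, hz, hz1, -, hcl⟩ := dichotomy (q := p) hp3 η hη
    (cc (fun a b => F a 0 b 0)) hc0 (by
      have h4 := hdvd none 0 0
      rw [hF0, hnη] at h4
      have h5 : η + p * ν - ∑ l', cc (fun a b => F a 0 b 0) l' =
        (η - ∑ l', cc (fun a b => F a 0 b 0) l') + p * ν := by ring
      rw [h5] at h4
      exact (Int.dvd_add_left (Dvd.intro _ rfl)).1 h4)
  have hcardL : Fintype.card (Option (ZMod p)) = p + 1 := by
    rw [Fintype.card_option, ZMod.card]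
  obtain ⟨l, hl⟩ : ∃ l, z l = 0 := by
    by_contra hcon
    push Not at hcon
    have : ∀ l, z l = 1 := fun l => (hz l).resolve_left (hcon l)
    have h4 : ∑ l, z l = p + 1 := by
      rw [Finset.sum_congr rfl (fun l _ => this l), sum_const, card_univ, hcardL]; simp
    rw [h4] at hz1
    have : (3 : ℤ) ≤ p := by exact_mod_cast hp3
    linarith
  have hcl0 : cc (fun a b => F a 0 b 0) l = κ := by rw [hcl, hl]; ring
  -- the function on the line `l`
  have hrepl := rep_ne l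
  have hflat : Flat χ2 (fun s r => F (rep l).1 s (rep l).2 r) := by
    refine ⟨?_, ?_, ?_⟩
    · intro s r
      apply hF1
      rintro ⟨h4, -, h5, -⟩
      exact hrepl (Prod.ext h4 h5)
    · intro u hu s r
      have := hFu 1 u isUnit_one hu (rep l).1 s (rep l).2 r
      rwa [one_mul, one_mul] at this
    · intro x2 y2 hxy
      have hc : ∀ l, cc (fun a b => F a x2 b y2) l = 1 ∨ cc (fun a b => F a x2 b y2) l = -1 := by
        intro l
        apply hF1
        rintro ⟨-, h4, -, h5⟩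
        exact hxy ⟨h4, h5⟩
      obtain ⟨κ', hκ', hκC', z', hz', hz1', hg0', hcl'⟩ := dichotomy (q := p) hp3 (F 0 x2 0 y2)
        (hF1 _ _ _ _ (by rintro ⟨-, h4, -, h5⟩; exact hxy ⟨h4, h5⟩))
        (cc (fun a b => F a x2 b y2)) hc (hdvd none x2 y2)
      have h4 := hline l x2 y2
      have h5 : F 0 x2 0 y2 - ∑ l', cc (fun a b => F a x2 b y2) l' +
          p * cc (fun a b => F a x2 b y2) l = p * (-2 * (κ' * z' l)) := by
        rw [hcl']
        linear_combination -hκC'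
      rw [h5] at h4
      refine ⟨-(ε * κ' * z' l), ?_, ?_⟩
      · rcases hε with h | h <;> rcases hκ' with h' | h' <;> rcases hz' l with h'' | h'' <;>
          rw [h, h', h''] <;> norm_num
      · apply mul_left_cancel₀ hpC
        rw [h4]
        push_cast
        ring
  have hclaim := claim D hD hsq χ2 hp2 _ hflat
  have hsum : ∑ s, ∑ r, F (rep l).1 s (rep l).2 r = ε * D * ν := by
    have h4 := hline l 0 0
    rw [hF0, hnη, hcl0] at h4
    have h5 : η + p * ν - ∑ l', cc (fun a b => F a 0 b 0) l' + p * κ = p * ν := by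
      linear_combination -hκC
    rw [h5] at h4
    simp only [mul_zero, sub_zero, AddChar.map_zero_eq_one, one_mul] at h4
    have h6 : (p : ℤ) * ∑ s, ∑ r, F (rep l).1 s (rep l).2 r = p * (ε * D * ν) := by
      have h7 : (p : ℤ) * ∑ s, ∑ r, F (rep l).1 s (rep l).2 r = ε * D * (p * ν) := by
        exact_mod_cast h4
      rw [h7]; ring
    exact mul_left_cancel₀ hpz h6
  obtain ⟨σ, hσ, hS⟩ := hclaim
  rw [hsum] at hS
  have hε2 : ε * ε = 1 := by rcases hε with h | h <;> rw [h] <;> norm_num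
  have hν : ν = D ∨ ν = -D ∨ ν = D - 2 ∨ ν = 2 - D := by
    rcases hS with h | h
    · have h4 : ε * ν = σ * D := by
        have : (D : ℤ) * (ε * ν) = D * (σ * D) := by rw [← mul_assoc]; linear_combination h
        exact mul_left_cancel₀ hDz this
      have h5 : ν = ε * σ * D := by linear_combination ε * h4 - ν * hε2
      rcases hε with h | h <;> rcases hσ with h' | h' <;> rw [h, h'] at h5 <;> omega
    · have h4 : ε * ν = σ * (D - 2) := by
        have : (D : ℤ) * (ε * ν) = D * (σ * (D - 2)) := by rw [← mul_assoc]; linear_combination h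
        exact mul_left_cancel₀ hDz this
      have h5 : ν = ε * σ * (D - 2) := by linear_combination ε * h4 - ν * hε2
      rcases hε with h | h <;> rcases hσ with h' | h' <;> rw [h, h'] at h5 <;> omega
  refine ⟨η, hη, ?_⟩
  have hp3' : (3 : ℤ) ≤ p := by exact_mod_cast hp3
  have hn2' : (2 : ℤ) ≤ n := by exact_mod_cast hn2
  have hDpos : (1 : ℤ) ≤ D := by exact_mod_cast hD.pos
  rcases hν with h | h | h | h
  · left; rw [hnη, h]; ring
  · exfalso
    rw [h] at hnη
    rcases hη with h' | h' <;> nlinarith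
  · right; rw [hnη, h]; ring
  · by_cases hD1 : D = 1
    · left; rw [hnη, h, hD1]; push_cast; ring
    · exfalso
      obtain ⟨i, hi⟩ := hD
      have hD3 : (3 : ℤ) ≤ D := by
        have : 3 ≤ D := by omega
        exact_mod_cast this
      rw [h] at hnη
      rcases hη with h' | h' <;> nlinarith

theorem aligned {m : ℕ} [NeZero m] (hm1 : m ≠ 1) (hodd : Odd m) (hsq : Squarefree m)
    (χ : AddChar (ZMod m) ℂ) (hχ : χ.IsPrimitive)
    (n : ℕ) (hn2 : 2 ≤ n) (hn : (m : ℤ) ∣ (n : ℤ) ^ 2 - 1)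
    (ε : ℤ) (hε : ε = 1 ∨ ε = -1)
    (G : ZMod m → ZMod m → ℤ)
    (h1 : ∀ c b, ¬ (c = 0 ∧ b = 0) → G c b = 1 ∨ G c b = -1)
    (h2 : G 0 0 = n)
    (hdual : ∀ x y, ∑ c, ∑ b, χ (b * x - c * y) * (G c b : ℂ) =
      ((ε * (m : ℕ) : ℤ) : ℂ) * G x y) : n = m + 1 ∨ n + 1 = m := by
  have key : ∀ p, p.Prime → p ∣ m → 3 ≤ p ∧ ∃ η : ℤ, (η = 1 ∨ η = -1) ∧
      ((n : ℤ) = m + η ∨ (n : ℤ) = m + η - 2 * p) := by
    intro p hp hpm
    have hp3 : 3 ≤ p := by
      have h2 := hp.two_le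
      have : p ≠ 2 := by
        rintro rfl
        exact (Nat.not_even_iff_odd.2 hodd) (even_iff_two_dvd.2 hpm)
      omega
    refine ⟨hp3, ?_⟩
    obtain ⟨D, rfl⟩ := hpm
    have h := aligned_prime hp hp3 (Nat.odd_mul.1 hodd).2
      (hsq.squarefree_of_dvd (Dvd.intro_left _ rfl)) (Nat.coprime_of_squarefree_mul hsq) χ hχ n hn2
      (((by push_cast; exact Dvd.intro _ rfl : (p : ℤ) ∣ ((p * D : ℕ) : ℤ))).trans hn)
      ε hε G h1 h2 hdual
    obtain ⟨η, hη, h'⟩ := h
    exact ⟨η, hη, by push_cast; exact h'⟩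
  obtain ⟨p, hp, hpm⟩ := Nat.exists_prime_and_dvd hm1
  obtain ⟨hp3, η, hη, h⟩ := key p hp hpm
  rcases h with h | h
  · rcases hη with h' | h' <;> rw [h'] at h <;> omega
  · obtain ⟨D, hD⟩ := id hpm
    have hD1 : D ≠ 1 := by
      rintro rfl
      rw [mul_one] at hD
      rw [hD] at h
      rcases hη with h' | h' <;> rw [h'] at h <;> omega
    obtain ⟨p', hp', hpD⟩ := Nat.exists_prime_and_dvd hD1
    have hpm' : p' ∣ m := hpD.trans (hD ▸ Dvd.intro_left _ rfl)
    have hpp : p' ≠ p := by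
      rintro rfl
      rw [hD] at hsq
      have hco := Nat.coprime_of_squarefree_mul hsq
      exact hp'.one_lt.ne' (Nat.Coprime.eq_one_of_dvd hco hpD)
    obtain ⟨hp3', η', hη', h'⟩ := key p' hp' hpm'
    have hpodd : Odd p := hodd.of_dvd_nat hpm
    have hpodd' : Odd p' := hodd.of_dvd_nat hpm'
    obtain ⟨i, hi⟩ := hpodd
    obtain ⟨i', hi'⟩ := hpodd'
    rcases h' with h' | h'
    · rcases hη' with e | e <;> rw [e] at h' <;> omega
    · exfalso
      rcases hη with e | e <;> rcases hη' with e' | e' <;> rw [e] at h <;> rw [e'] at h' <;> omega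

end R848.SICP
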