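import Mathlib
import Pool.Agent.R503.SIC.Cliff
import Pool.Agent.R848.SICP.Aligned

/-! Symmetries of order two of Weyl–Heisenberg SIC fiducials in odd dimension. -/

set_option autoImplicit false

namespace R848.SICP

open Finset
open scoped BigOperators ComplexConjugate
open Pool.Agent.R503.SIC (e ov Fid Sym Dm Nrm)

section translate

variable {d : ℕ} [NeZero d] {ψ : ZMod d → ℂ} {k a b : ZMod d} {c : ℂ}

theorem translate (hd : Odd d) (hψ : Fid ψ) (hs : Sym ψ k a b c) :
    ∃ φ : ZMod d → ℂ, Fid φ ∧ ∃ l : ℂ, (∀ j, φ (k * j) = l * φ j) ∧ (l = 1 ∨ l = -1) := by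
  obtain ⟨h1, h2, h3⟩ := Pool.Agent.R503.SIC.displ hψ hs
  have h20 : IsUnit (2 : ZMod d) := by
    have : Nat.Coprime 2 d := (Nat.coprime_two_left).2 hd
    exact_mod_cast (ZMod.isUnit_iff_coprime 2 d).2 this
  obtain ⟨w, hw⟩ := h20.exists_right_inv
  have hka : k * (w * a) = -(w * a) := by linear_combination w * h1
  have hkb : k * (w * b) = -(w * b) := by linear_combination w * h2
  refine ⟨fun j => e (w * b * j) * ψ (j + w * a), ⟨?_, ?_⟩, c * e (b * (w * a)), ?_, ?_⟩
  · rw [← hψ.1, ← Equiv.sum_comp (Equiv.addRight (w * a)) (fun j => ‖ψ j‖ ^ 2)]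
    apply Finset.sum_congr rfl
    intro j _
    rw [norm_mul, Pool.Agent.R503.SIC.norm_e, one_mul]
    rfl
  · intro x z hxz
    have : ov (fun j => e (w * b * j) * ψ (j + w * a)) x z =
        e (-(w * b * x) - z * (w * a)) * ov ψ x z := by
      unfold ov
      rw [Finset.mul_sum, ← Equiv.sum_comp (Equiv.addRight (w * a))
        (fun j => e (-(w * b * x) - z * (w * a)) * (conj (ψ (j + x)) * (e (z * j) * ψ j)))]
      apply Finset.sum_congr rfl
      intro j _
      simp only [Equiv.coe_addRight]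
      rw [map_mul, Pool.Agent.R503.SIC.conj_e]
      have e1 : j + x + w * a = j + w * a + x := by ring
      rw [e1]
      have e2 : e (-(w * b * (j + x))) * e (z * j) * e (w * b * j) =
          e (-(w * b * x) - z * (w * a)) * e (z * (j + w * a)) := by
        rw [← Pool.Agent.R503.SIC.e_add, ← Pool.Agent.R503.SIC.e_add,
          ← Pool.Agent.R503.SIC.e_add]
        congr 1; ring
      linear_combination conj (ψ (j + w * a + x)) * ψ (j + w * a) * e2
    rw [this, norm_mul, Pool.Agent.R503.SIC.norm_e, one_mul]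
    exact hψ.2 x z hxz
  · intro j
    have e1 : k * j + w * a = k * (j + w * a) + a := by
      linear_combination -hka + a * hw
    show e (w * b * (k * j)) * ψ (k * j + w * a) = _
    rw [e1, hs.2 (j + w * a)]
    have e2 : e (w * b * (k * j)) * e (b * (j + w * a)) = e (b * (w * a)) * e (w * b * j) := by
      rw [← Pool.Agent.R503.SIC.e_add, ← Pool.Agent.R503.SIC.e_add]
      congr 1
      linear_combination j * hkb - b * j * hw
    linear_combination c * ψ (j + w * a) * e2
  · have : (c * e (b * (w * a))) ^ 2 = 1 := by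
      rw [← h3, mul_pow, pow_two (e (b * (w * a))), ← Pool.Agent.R503.SIC.e_add]
      congr 2
      linear_combination b * a * hw
    exact sq_eq_one_iff_of_side this
where
  sq_eq_one_iff_of_side {z : ℂ} (h : z ^ 2 = 1) : z = 1 ∨ z = -1 := by
    have : (z - 1) * (z + 1) = 0 := by linear_combination h
    rcases mul_eq_zero.1 this with h | h
    · left; linear_combination h
    · right; linear_combination h

end translate

section rr

variable {m : ℕ} [NeZero m]

/-- centred overlaps -/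
noncomputable def r1 (χ : AddChar (ZMod m) ℂ) (f : ZMod m → ℂ) (c b : ZMod m) : ℂ :=
  ∑ j, χ (b * j) * (conj (f (j + c)) * f (j - c))

theorem r1_dual (χ : AddChar (ZMod m) ℂ) (hχ : χ.IsPrimitive) (f : ZMod m → ℂ) (l : ℂ)
    (hl : ∀ j, f (-j) = l * f j) (x y : ZMod m) :
    ∑ c, ∑ b, χ (b * x - c * y) * r1 χ f c b = m * conj l * r1 χ f x y := by
  have h1 : ∀ c, ∑ b, χ (b * x - c * y) * r1 χ f c b =
      m * (χ (- (c * y)) * (conj (f (-x + c)) * f (-x - c))) := by
    intro c
    have e1 : ∀ b : ZMod m, χ (b * x - c * y) * r1 χ f c b =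
        ∑ j, (χ (b * (x + j)) * (χ (- (c * y)) * (conj (f (j + c)) * f (j - c)))) := by
      intro b
      rw [r1, Finset.mul_sum]
      apply Finset.sum_congr rfl
      intro j _
      have key : χ (b * x - c * y) * χ (b * j) = χ (b * (x + j)) * χ (- (c * y)) := by
        rw [← AddChar.map_add_eq_mul, ← AddChar.map_add_eq_mul]
        congr 1
        ring
      rw [← mul_assoc, key, mul_assoc]
    rw [Finset.sum_congr rfl (fun b _ => e1 b), Finset.sum_comm]
    have e2 : ∀ j : ZMod m, ∑ b : ZMod m, (χ (b * (x + j)) *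
          (χ (- (c * y)) * (conj (f (j + c)) * f (j - c)))) =
        (if x + j = 0 then (m : ℂ) else 0) *
          (χ (- (c * y)) * (conj (f (j + c)) * f (j - c))) := by
      intro j
      rw [← Finset.sum_mul]
      congr 1
      have := AddChar.sum_mulShift (x + j) hχ
      rw [this, ZMod.card]
      push_cast
      rfl
    rw [Finset.sum_congr rfl (fun j _ => e2 j)]
    rw [Finset.sum_eq_single (-x)]
    · rw [if_pos (by ring)]
    · intro j _ hj
      rw [if_neg, zero_mul]
      intro h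
      exact hj (by linear_combination h)
    · simp
  rw [Finset.sum_congr rfl (fun c _ => h1 c), r1, Finset.mul_sum,
    ← Equiv.sum_comp (Equiv.neg (ZMod m))]
  apply Finset.sum_congr rfl
  intro j _
  simp only [Equiv.neg_apply]
  have e3 : f (-x + -j) = l * f (j + x) := by rw [← hl]; congr 1; ring
  have e4 : -(-j * y) = y * j := by ring
  have e5 : -x - -j = j - x := by ring
  rw [e3, e4, e5, map_mul conj]
  ring

theorem r1_real (χ : AddChar (ZMod m) ℂ) (f : ZMod m → ℂ) (l : ℂ)
    (hl : ∀ j, f (-j) = l * f j) (hl1 : conj l * l = 1) (c b : ZMod m) :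
    conj (r1 χ f c b) = r1 χ f c b := by
  rw [r1, map_sum, ← Equiv.sum_comp (Equiv.neg (ZMod m))]
  apply Finset.sum_congr rfl
  intro j _
  simp only [Equiv.neg_apply, map_mul, Complex.conj_conj]
  rw [← AddChar.map_neg_eq_conj]
  have e1 : f (-j + c) = l * f (j - c) := by rw [← hl]; congr 1; ring
  have e2 : f (-j - c) = l * f (j + c) := by rw [← hl]; congr 1; ring
  have e3 : -(b * -j) = b * j := by ring
  rw [e1, e2, e3, map_mul conj]
  calc χ (b * j) * (l * f (j - c) * (conj l * conj (f (j + c)))) =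
      (conj l * l) * (χ (b * j) * (conj (f (j + c)) * f (j - c))) := by
        ring
    _ = _ := by rw [hl1, one_mul]

end rr

theorem main_aux {m D n : ℕ} [NeZero (m * D)] (hodd : Odd (m * D)) (hm1 : m ≠ 1)
    (hsq : Squarefree m) (hco : m.Coprime D) {φ : ZMod (m * D) → ℂ} (hφ : Fid φ)
    (k : ZMod (m * D)) (hk : ZMod.chineseRemainder hco k = (-1, 1)) (l : ℂ)
    (hl : ∀ j, φ (k * j) = l * φ j) (hl1 : l = 1 ∨ l = -1) (hn : n ^ 2 = m * D + 1) :
    (n = m + 1 ∧ l = 1 ∧ ∀ c b : ZMod m, ¬ (c = 0 ∧ b = 0) →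
      ov φ (2 * (ZMod.chineseRemainder hco).symm (c, 0)) ((ZMod.chineseRemainder hco).symm (b, 0)) =
        e (-((ZMod.chineseRemainder hco).symm (b, 0) * (ZMod.chineseRemainder hco).symm (c, 0))) *
          (1 / n)) ∨ n + 1 = m := by
  classical
  have hne : m * D ≠ 0 := NeZero.ne _
  have : NeZero m := ⟨fun h => hne (by rw [h, zero_mul])⟩
  have : NeZero D := ⟨fun h => hne (by rw [h, mul_zero])⟩
  have hm0 : 0 < m := Nat.pos_of_ne_zero (NeZero.ne m)
  have hmdpos : 0 < m * D := Nat.pos_of_ne_zero hne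
  have hn2 : 2 ≤ n := by
    have : 1 < n ^ 2 := by omega
    by_contra h
    have : n ≤ 1 := by omega
    have : n ^ 2 ≤ 1 ^ 2 := Nat.pow_le_pow_left this 2
    omega
  have hnC : (n : ℂ) ≠ 0 := by
    have : n ≠ 0 := by omega
    exact_mod_cast this
  set E := ZMod.chineseRemainder hco with hE
  obtain ⟨χ1, χ2, hp1, hp2, h3⟩ := crt_char hco (ZMod.stdAddChar (N := m * D))
    (ZMod.isPrimitive_stdAddChar _)
  have hχ1 : ∀ z : ZMod m, ZMod.stdAddChar (E.symm (z, 0)) = χ1 z := by
    intro z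
    rw [h3, AddChar.map_zero_eq_one, mul_one]
  -- the slices
  set f : ZMod D → ZMod m → ℂ := fun s j => φ (E.symm (j, s)) with hf
  have hfl : ∀ s j, f s (-j) = l * f s j := by
    intro s j
    simp only [hf]
    rw [← hl]
    congr 1
    apply E.injective
    rw [map_mul, E.apply_symm_apply, E.apply_symm_apply, hk, Prod.mk_mul_mk]
    simp
  have hcl : conj l = l := by rcases hl1 with h | h <;> rw [h] <;> simp
  have hll : conj l * l = 1 := by rw [hcl]; rcases hl1 with h | h <;> rw [h] <;> norm_num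
  set ρ : ZMod m → ZMod m → ℂ := fun c b => ∑ s, r1 χ1 (f s) c b with hρ
  have hρreal : ∀ c b, conj (ρ c b) = ρ c b := by
    intro c b
    simp only [hρ]
    rw [map_sum]
    apply Finset.sum_congr rfl
    intro s _
    exact r1_real χ1 (f s) l (hfl s) hll c b
  have hρdual : ∀ x y, ∑ c, ∑ b, χ1 (b * x - c * y) * ρ c b = m * l * ρ x y := by
    intro x y
    have e1 : ∀ c b, χ1 (b * x - c * y) * ρ c b = ∑ s, χ1 (b * x - c * y) * r1 χ1 (f s) c b := by
      intro c b
      simp only [hρ]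
      rw [Finset.mul_sum]
    simp_rw [e1]
    have e2 : ∑ c, ∑ b, ∑ s, χ1 (b * x - c * y) * r1 χ1 (f s) c b =
        ∑ s, ∑ c, ∑ b, χ1 (b * x - c * y) * r1 χ1 (f s) c b := by
      rw [Finset.sum_comm' (s := univ) (t := fun _ => univ) (t' := univ) (s' := fun _ => univ)
        (by simp)]
      calc ∑ b, ∑ c, ∑ s, χ1 (b * x - c * y) * r1 χ1 (f s) c b
          = ∑ b, ∑ s, ∑ c, χ1 (b * x - c * y) * r1 χ1 (f s) c b :=
            Finset.sum_congr rfl (fun _ _ => Finset.sum_comm)
        _ = ∑ s, ∑ b, ∑ c, χ1 (b * x - c * y) * r1 χ1 (f s) c b := Finset.sum_comm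
        _ = ∑ s, ∑ c, ∑ b, χ1 (b * x - c * y) * r1 χ1 (f s) c b :=
            Finset.sum_congr rfl (fun _ _ => Finset.sum_comm)
    rw [e2, Finset.sum_congr rfl (fun s _ => r1_dual χ1 hp1 (f s) l (hfl s) x y),
      ← Finset.mul_sum, hcl]
  -- relation to overlaps
  have hρov : ∀ c b : ZMod m, ov φ (2 * E.symm (c, 0)) (E.symm (b, 0)) =
      e (-(E.symm (b, 0) * E.symm (c, 0))) * ρ c b := by
    intro c b
    have e1 : ρ c b = ∑ j, e (E.symm (b, 0) * j) *
        (conj (φ (j + E.symm (c, 0))) * φ (j - E.symm (c, 0))) := by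
      rw [R848.SIC.sum_crt E.toEquiv (fun j => e (E.symm (b, 0) * j) *
        (conj (φ (j + E.symm (c, 0))) * φ (j - E.symm (c, 0)))), Finset.sum_comm]
      simp only [hρ]
      apply Finset.sum_congr rfl
      intro s _
      rw [r1]
      apply Finset.sum_congr rfl
      intro j _
      have e2 : E.toEquiv.symm (j, s) = E.symm (j, s) := rfl
      rw [e2]
      have e3 : E.symm (b, 0) * E.symm (j, s) = E.symm (b * j, 0) := by
        rw [← map_mul, Prod.mk_mul_mk, zero_mul]
      have e4 : E.symm (j, s) + E.symm (c, 0) = E.symm (j + c, s) := by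
        rw [← map_add, Prod.mk_add_mk, add_zero]
      have e5 : E.symm (j, s) - E.symm (c, 0) = E.symm (j - c, s) := by
        rw [← map_sub, Prod.mk_sub_mk, sub_zero]
      rw [e3, e4, e5]
      simp only [e, hf]
      rw [hχ1]
    rw [e1, Finset.mul_sum]
    unfold ov
    rw [← Equiv.sum_comp (Equiv.subRight (E.symm (c, 0)))
      (fun j => conj (φ (j + 2 * E.symm (c, 0))) * (e (E.symm (b, 0) * j) * φ j))]
    apply Finset.sum_congr rfl
    intro j _
    simp only [Equiv.subRight_apply]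
    have e6 : j - E.symm (c, 0) + 2 * E.symm (c, 0) = j + E.symm (c, 0) := by ring
    rw [e6]
    have e7 : e (E.symm (b, 0) * (j - E.symm (c, 0))) =
        e (-(E.symm (b, 0) * E.symm (c, 0))) * e (E.symm (b, 0) * j) := by
      rw [← Pool.Agent.R503.SIC.e_add]; congr 1; ring
    rw [e7]; ring
  have hρ0 : ρ 0 0 = 1 := by
    have h4 := hρov 0 0
    have h5 : E.symm ((0 : ZMod m), (0 : ZMod D)) = 0 := map_zero _
    rw [h5, mul_zero, mul_zero, neg_zero, Pool.Agent.R503.SIC.e_zero, one_mul,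
      Pool.Agent.R503.SIC.ov_zero hφ.1] at h4
    exact h4.symm
  have hρ1 : ∀ c b, ¬ (c = 0 ∧ b = 0) → ((n : ℂ) * ρ c b) = 1 ∨ ((n : ℂ) * ρ c b) = -1 := by
    intro c b hcb
    have h4 : ‖ρ c b‖ ^ 2 = 1 / ((m * D : ℕ) + 1 : ℝ) := by
      have h5 := hφ.2 (2 * E.symm (c, 0)) (E.symm (b, 0)) (by
        intro h
        have h6 := congrArg Prod.fst h
        have h7 := congrArg Prod.snd h
        simp only at h6 h7
        apply hcb
        have h20 : IsUnit (2 : ZMod (m * D)) := by
          have : Nat.Coprime 2 (m * D) := (Nat.coprime_two_left).2 hodd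
          exact_mod_cast (ZMod.isUnit_iff_coprime 2 (m * D)).2 this
        rw [h20.mul_right_eq_zero, map_eq_zero_iff E.symm E.symm.injective] at h6
        rw [map_eq_zero_iff E.symm E.symm.injective] at h7
        exact ⟨(Prod.ext_iff.1 h6).1, (Prod.ext_iff.1 h7).1⟩)
      rw [hρov, norm_mul, Pool.Agent.R503.SIC.norm_e, one_mul] at h5
      exact h5
    have h5 : ρ c b * ρ c b = ((1 / ((m * D : ℕ) + 1 : ℝ) : ℝ) : ℂ) := by
      rw [← h4]
      nth_rw 1 [← hρreal c b]
      exact Pool.Agent.R503.SIC.conj_mul_self' _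
    have h6 : ((n : ℂ) * ρ c b) ^ 2 = 1 := by
      have h7 : ((n : ℂ)) ^ 2 = ((m * D : ℕ) : ℂ) + 1 := by exact_mod_cast hn
      rw [mul_pow, pow_two (ρ c b), h5, h7]
      push_cast
      rw [mul_one_div, div_self]
      rw [← Nat.cast_mul, ← h7]
      exact pow_ne_zero 2 hnC
    exact translate.sq_eq_one_iff_of_side h6
  -- the integer function
  have hG : ∀ c b, ∃ g : ℤ, (¬ (c = 0 ∧ b = 0) → g = 1 ∨ g = -1) ∧ (c = 0 ∧ b = 0 → g = n) ∧
      (g : ℂ) = n * ρ c b := by
    intro c b
    by_cases hcb : c = 0 ∧ b = 0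
    · refine ⟨n, fun h => absurd hcb h, fun _ => rfl, ?_⟩
      rw [hcb.1, hcb.2, hρ0, mul_one]
      push_cast; rfl
    · rcases hρ1 c b hcb with h | h
      · exact ⟨1, fun _ => Or.inl rfl, fun h' => absurd h' hcb, by rw [h]; simp⟩
      · exact ⟨-1, fun _ => Or.inr rfl, fun h' => absurd h' hcb, by rw [h]; simp⟩
  choose G hG1 hG2 hG3 using hG
  obtain ⟨ε, hε, hεl⟩ : ∃ ε : ℤ, (ε = 1 ∨ ε = -1) ∧ (ε : ℂ) = l := by
    rcases hl1 with h | h
    · exact ⟨1, Or.inl rfl, by rw [h]; simp⟩
    · exact ⟨-1, Or.inr rfl, by rw [h]; simp⟩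
  have hGdual : ∀ x y, ∑ c, ∑ b, χ1 (b * x - c * y) * (G c b : ℂ) =
      ((ε * (m : ℕ) : ℤ) : ℂ) * G x y := by
    intro x y
    rw [hG3 x y]
    have h4 := hρdual x y
    have e1 : ∑ c, ∑ b, χ1 (b * x - c * y) * (G c b : ℂ) =
        n * ∑ c, ∑ b, χ1 (b * x - c * y) * ρ c b := by
      rw [Finset.mul_sum]
      apply Finset.sum_congr rfl; intro c _
      rw [Finset.mul_sum]
      apply Finset.sum_congr rfl; intro b _
      rw [hG3]; ring
    rw [e1, h4, ← hεl]
    push_cast
    ring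
  rcases aligned hm1 (Nat.odd_mul.1 hodd).1 hsq χ1 hp1 n hn2 (by
    refine ⟨D, ?_⟩
    have : ((n : ℤ)) ^ 2 = m * D + 1 := by exact_mod_cast hn
    rw [this]; ring) ε hε G hG1 (hG2 0 0 ⟨rfl, rfl⟩) hGdual with hcase | hcase
  swap
  · exact Or.inr hcase
  left
  refine ⟨hcase, ?_⟩
  -- the sum of all values
  have hsum : ∑ p : ZMod m × ZMod m, G p.1 p.2 = ε * m * n := by
    have h4 := hGdual 0 0
    simp only [mul_zero, sub_zero, AddChar.map_zero_eq_one, one_mul] at h4
    rw [hG2 0 0 ⟨rfl, rfl⟩] at h4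
    rw [Fintype.sum_prod_type]
    have h5 : ((∑ c, ∑ b, G c b : ℤ) : ℂ) = ((ε * m * n : ℤ) : ℂ) := by
      push_cast
      push_cast at h4
      exact h4
    exact_mod_cast h5
  have hcard : ∑ _p : ZMod m × ZMod m, (1 : ℤ) = m ^ 2 := by
    rw [sum_const, card_univ, Fintype.card_prod, ZMod.card]
    simp [pow_two]
  have hGle : ∀ p : ZMod m × ZMod m, 0 ≤ (1 + if p = (0, 0) then ((n : ℤ) - 1) else 0) -
      G p.1 p.2 := by
    intro p
    by_cases hp : p = (0, 0)
    · rw [if_pos hp, hp]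
      simp only
      rw [hG2 0 0 ⟨rfl, rfl⟩]; linarith
    · rw [if_neg hp]
      rcases hG1 p.1 p.2 (fun h => hp (Prod.ext h.1 h.2)) with h | h <;> rw [h] <;> norm_num
  have hGge : ∀ p : ZMod m × ZMod m, 0 ≤ (1 + if p = (0, 0) then (-(n : ℤ) - 1) else 0) +
      G p.1 p.2 := by
    intro p
    by_cases hp : p = (0, 0)
    · rw [if_pos hp, hp]
      simp only
      rw [hG2 0 0 ⟨rfl, rfl⟩]; linarith
    · rw [if_neg hp]
      rcases hG1 p.1 p.2 (fun h => hp (Prod.ext h.1 h.2)) with h | h <;> rw [h] <;> norm_num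
  have hε1 : ε = 1 := by
    rcases hε with h | h
    · exact h
    · exfalso
      have h4 := Finset.sum_nonneg (fun p (_ : p ∈ (univ : Finset (ZMod m × ZMod m))) => hGge p)
      rw [Finset.sum_add_distrib, Finset.sum_add_distrib, hcard, hsum, Finset.sum_ite_eq', h] at h4
      simp only [mem_univ, if_true] at h4
      have h5 : (n : ℤ) = m + 1 := by exact_mod_cast hcase
      have h6 : (0 : ℤ) < m := by exact_mod_cast hm0
      rw [h5] at h4
      nlinarith
  have hzero : ∑ p : ZMod m × ZMod m, ((1 + if p = (0, 0) then ((n : ℤ) - 1) else 0) -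
      G p.1 p.2) = 0 := by
    rw [Finset.sum_sub_distrib, Finset.sum_add_distrib, hcard, hsum, Finset.sum_ite_eq', hε1]
    simp only [mem_univ, if_true]
    have h5 : (n : ℤ) = m + 1 := by exact_mod_cast hcase
    rw [h5]; ring
  refine ⟨by rw [← hεl, hε1]; simp, ?_⟩
  intro c b hcb
  rw [hρov]
  congr 1
  have h4 := (Finset.sum_eq_zero_iff_of_nonneg (fun p _ => hGle p)).1 hzero (c, b) (mem_univ _)
  rw [if_neg (by
    intro h
    exact hcb ⟨congrArg Prod.fst h, congrArg Prod.snd h⟩)] at h4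
  simp only at h4
  have h5 : G c b = 1 := by linarith
  have h6 := hG3 c b
  rw [h5] at h6
  rw [eq_div_iff hnC, mul_comm, ← h6]
  simp

end R848.SICP
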