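import Mathlib
import Pool.Agent.R848.SICP.Sic

/-! Final form: involutive symmetries are `j ↦ ± n j`, `n ^ 2 = d + 1`. -/

set_option autoImplicit false

namespace R848.SICP

open Finset
open scoped BigOperators ComplexConjugate
open Pool.Agent.R503.SIC (e ov Fid Sym Dm Nrm)

/-- splitting `d` according to an involution `k` -/
theorem split {d : ℕ} [NeZero d] (hd : Odd d) (k : ZMod d) (hk : k * k = 1) (hk1 : k ≠ 1) :
    ∃ (m D : ℕ) (hco : m.Coprime D) (h : d = m * D), m ≠ 1 ∧
      ∀ K : ℕ, (K : ZMod d) = k → (K : ZMod m) = -1 ∧ (K : ZMod D) = 1 := by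
  have hd0 : d ≠ 0 := NeZero.ne d
  have hd1 : d ≠ 1 := by
    rintro rfl
    exact hk1 (Subsingleton.elim _ _)
  set K := k.val with hK
  have hKk : (K : ZMod d) = k := ZMod.natCast_zmod_val k
  have hK0 : K ≠ 0 := by
    intro h
    rw [h, Nat.cast_zero] at hKk
    rw [← hKk, mul_zero] at hk
    have : Fact (1 < d) := ⟨by omega⟩
    exact zero_ne_one hk
  obtain ⟨K', hK'⟩ := Nat.exists_eq_succ_of_ne_zero hK0
  have hdvd : d ∣ (K + 1) * K' := by
    have h1 : (((K + 1) * K' : ℕ) : ZMod d) = 0 := by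
      have h2 : ((K' : ℕ) : ZMod d) = k - 1 := by
        rw [← hKk, hK']; push_cast; ring
      push_cast
      rw [hKk, h2]
      linear_combination hk
    exact (ZMod.natCast_eq_zero_iff _ _).1 h1
  have hco : (Nat.gcd d (K + 1)).Coprime (Nat.gcd d K') := by
    rw [Nat.coprime_iff_gcd_eq_one]
    by_contra hne
    obtain ⟨p, hp, hpd⟩ := Nat.exists_prime_and_dvd hne
    have h1 : p ∣ d := (hpd.trans (Nat.gcd_dvd_left _ _)).trans (Nat.gcd_dvd_left _ _)
    have h2 : p ∣ K + 1 := (hpd.trans (Nat.gcd_dvd_left _ _)).trans (Nat.gcd_dvd_right _ _)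
    have h3 : p ∣ K' := (hpd.trans (Nat.gcd_dvd_right _ _)).trans (Nat.gcd_dvd_right _ _)
    have h4 : p ∣ 2 := by
      have h5 : K + 1 = K' + 2 := by omega
      rw [h5] at h2
      exact (Nat.dvd_add_right h3).1 h2
    have h5 : p = 2 := (Nat.prime_dvd_prime_iff_eq hp Nat.prime_two).1 h4
    rw [h5] at h1
    exact (Nat.not_even_iff_odd.2 hd) (even_iff_two_dvd.2 h1)
  have hprod : d = Nat.gcd d (K + 1) * Nat.gcd d K' := by
    apply Nat.dvd_antisymm
    · have h1 : Nat.gcd d ((K + 1) * K') = d := Nat.gcd_eq_left hdvd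
      calc d = Nat.gcd d ((K + 1) * K') := h1.symm
        _ ∣ _ := Nat.gcd_mul_right_dvd_mul_gcd _ _ _
    · exact hco.mul_dvd_of_dvd_of_dvd (Nat.gcd_dvd_left _ _) (Nat.gcd_dvd_left _ _)
  refine ⟨Nat.gcd d (K + 1), Nat.gcd d K', hco, hprod, ?_, ?_⟩
  · intro h
    rw [h, one_mul] at hprod
    apply hk1
    have h1 : d ∣ K' := by
      rw [hprod]; exact Nat.gcd_dvd_right _ _
    have h2 : (K' : ZMod d) = 0 := (ZMod.natCast_eq_zero_iff _ _).2 h1
    rw [← hKk, hK']
    push_cast
    rw [h2, zero_add]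
  · intro L hL
    have h1 : L ≡ K [MOD d] := by
      rw [← ZMod.natCast_eq_natCast_iff, hL, hKk]
    have h2 : (L : ZMod (Nat.gcd d (K + 1))) = K :=
      (ZMod.natCast_eq_natCast_iff _ _ _).2 (h1.of_dvd (Nat.gcd_dvd_left _ _))
    have h3 : (L : ZMod (Nat.gcd d K')) = K :=
      (ZMod.natCast_eq_natCast_iff _ _ _).2 (h1.of_dvd (Nat.gcd_dvd_left _ _))
    rw [h2, h3]
    constructor
    · have h4 : ((K + 1 : ℕ) : ZMod (Nat.gcd d (K + 1))) = 0 :=
        (ZMod.natCast_eq_zero_iff _ _).2 (Nat.gcd_dvd_right _ _)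
      push_cast at h4
      linear_combination h4
    · have h4 : ((K' : ℕ) : ZMod (Nat.gcd d K')) = 0 :=
        (ZMod.natCast_eq_zero_iff _ _).2 (Nat.gcd_dvd_right _ _)
      rw [hK']
      push_cast
      linear_combination h4

/-- the number of multiples of `x` -/
def mult {d : ℕ} [NeZero d] (x : ZMod d) : ℕ := (Finset.univ.image fun w : ZMod d => x * w).card

theorem mult_eq {m D : ℕ} [NeZero (m * D)] (hodd : Odd (m * D)) (hco : m.Coprime D)
    (k : ZMod (m * D)) (hk : ZMod.chineseRemainder hco k = (-1, 1)) : mult (k - 1) = m := by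
  classical
  have hne : m * D ≠ 0 := NeZero.ne _
  have : NeZero m := ⟨fun h => hne (by rw [h, zero_mul])⟩
  set E := ZMod.chineseRemainder hco with hE
  have h20 : IsUnit (2 : ZMod m) := by
    have : Nat.Coprime 2 m := (Nat.coprime_two_left).2 (Nat.odd_mul.1 hodd).1
    exact_mod_cast (ZMod.isUnit_iff_coprime 2 m).2 this
  obtain ⟨w, hw⟩ := h20.exists_right_inv
  have himg : (Finset.univ.image fun x : ZMod (m * D) => (k - 1) * x) =
      Finset.univ.image fun u : ZMod m => E.symm (u, 0) := by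
    ext y
    simp only [mem_image, mem_univ, true_and]
    constructor
    · rintro ⟨x, rfl⟩
      refine ⟨-2 * (E x).1, ?_⟩
      apply E.injective
      rw [E.apply_symm_apply, map_mul, map_sub, hk, map_one]
      ext
      · simp only [Prod.fst_mul, Prod.fst_sub, Prod.fst_one]; ring
      · simp
    · rintro ⟨u, rfl⟩
      refine ⟨E.symm (-w * u, 0), ?_⟩
      apply E.injective
      rw [map_mul, E.apply_symm_apply, E.apply_symm_apply, map_sub, hk, map_one]
      ext
      · simp only [Prod.fst_mul, Prod.fst_sub, Prod.fst_one]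
        linear_combination u * hw
      · simp
  unfold mult
  rw [himg, card_image_of_injective, card_univ, ZMod.card]
  intro u v huv
  exact (Prod.ext_iff.1 (E.symm.injective huv)).1

theorem dil {d : ℕ} [NeZero d] (hd : Odd d) {ψ : ZMod d → ℂ} (hψ : Fid ψ) {k a b : ZMod d} {c : ℂ}
    (hs : Sym ψ k a b c) (hk1 : k ≠ 1) (hsq : Squarefree (mult (k - 1))) :
    ∃ n : ℕ, n ^ 2 = d + 1 ∧ (k = n ∨ k = -n) := by
  obtain ⟨n, hn, -⟩ := Pool.Agent.R503.SIC.dilation hψ hs hk1
  refine ⟨n, hn, ?_⟩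
  obtain ⟨φ, hφ, l, hl, hl1⟩ := translate hd hψ hs
  obtain ⟨m, D, hco, h, hm1, hK⟩ := split hd k hs.1 hk1
  subst h
  have hkE : ZMod.chineseRemainder hco k = (-1, 1) := by
    obtain ⟨h1, h2⟩ := hK k.val (ZMod.natCast_zmod_val k)
    rw [← ZMod.natCast_zmod_val k, map_natCast]
    exact Prod.ext h1 h2
  rw [mult_eq hd hco k hkE] at hsq
  have hmain := main_aux hd hm1 hsq hco hφ k hkE l hl hl1 hn
  have hne : m * D ≠ 0 := NeZero.ne _
  have hm0 : m ≠ 0 := fun h => hne (by rw [h, zero_mul])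
  set E := ZMod.chineseRemainder hco with hE
  rcases hmain with ⟨h, -⟩ | h
  · right
    have hD : D = m + 2 := by
      have h1 : m * D = m * (m + 2) := by
        have : (m + 1) ^ 2 = m * D + 1 := by rw [← h]; exact hn
        nlinarith
      exact Nat.eq_of_mul_eq_mul_left (Nat.pos_of_ne_zero hm0) h1
    apply E.injective
    rw [hkE, map_neg, map_natCast]
    have e1 : ((n : ℕ) : ZMod m) = 1 := by
      rw [h]; push_cast; rw [ZMod.natCast_self, zero_add]
    have e2 : ((n : ℕ) : ZMod D) = -1 := by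
      have : n + 1 = D := by omega
      have h3 : ((n + 1 : ℕ) : ZMod D) = 0 := by rw [this]; exact ZMod.natCast_self D
      push_cast at h3
      linear_combination h3
    have : ((n : ℕ) : ZMod m × ZMod D) = (((n : ℕ) : ZMod m), ((n : ℕ) : ZMod D)) := rfl
    rw [this, e1, e2]
    simp
  · left
    have hD : D + 1 = n := by
      have h1 : m * (D + 1) = m * n := by
        have : n ^ 2 = m * D + 1 := hn
        rw [← h] at this ⊢
        nlinarith
      exact Nat.eq_of_mul_eq_mul_left (Nat.pos_of_ne_zero hm0) h1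
    apply E.injective
    rw [hkE, map_natCast]
    have e1 : ((n : ℕ) : ZMod m) = -1 := by
      have h3 : ((n + 1 : ℕ) : ZMod m) = 0 := by rw [h]; exact ZMod.natCast_self m
      push_cast at h3
      linear_combination h3
    have e2 : ((n : ℕ) : ZMod D) = 1 := by
      rw [← hD]; push_cast; rw [ZMod.natCast_self, zero_add]
    have : ((n : ℕ) : ZMod m × ZMod D) = (((n : ℕ) : ZMod m), ((n : ℕ) : ZMod D)) := rfl
    rw [this, e1, e2]

/-- the overlaps on the sublattice in the case `k = - n` -/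
theorem align {d : ℕ} [NeZero d] (hd : Odd d) {ψ : ZMod d → ℂ} (hψ : Fid ψ) {k : ZMod d} {c : ℂ}
    (hk : k * k = 1) (hs : ∀ j, ψ (k * j) = c * ψ j) (hk1 : k ≠ 1)
    (hsq : Squarefree (mult (k - 1))) (n : ℕ) (hn : n ^ 2 = d + 1) (hkn : k = -n) :
    c = 1 ∧ ∀ x z : ZMod d, k * x = -x → k * z = -z → (x, z) ≠ (0, 0) →
      ov ψ (2 * x) z = e (-(z * x)) * (1 / n) := by
  have hsym : Sym ψ k 0 0 c := ⟨hk, fun j => by
    rw [add_zero, hs, zero_mul, Pool.Agent.R503.SIC.e_zero, mul_one]⟩
  obtain ⟨-, -, hc⟩ := Pool.Agent.R503.SIC.displ hψ hsym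
  rw [mul_zero, Pool.Agent.R503.SIC.e_zero, mul_one] at hc
  have hc1 : c = 1 ∨ c = -1 := translate.sq_eq_one_iff_of_side hc
  obtain ⟨m, D, hco, h, hm1, hK⟩ := split hd k hk hk1
  subst h
  have hkE : ZMod.chineseRemainder hco k = (-1, 1) := by
    obtain ⟨h1, h2⟩ := hK k.val (ZMod.natCast_zmod_val k)
    rw [← ZMod.natCast_zmod_val k, map_natCast]
    exact Prod.ext h1 h2
  rw [mult_eq hd hco k hkE] at hsq
  have hmain := main_aux hd hm1 hsq hco hψ k hkE c hs hc1 hn
  have hne : m * D ≠ 0 := NeZero.ne _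
  have hm0 : m ≠ 0 := fun h => hne (by rw [h, zero_mul])
  set E := ZMod.chineseRemainder hco with hE
  rcases hmain with ⟨h, hc', hov⟩ | h
  · refine ⟨hc', ?_⟩
    have hDodd : Odd D := (Nat.odd_mul.1 hd).2
    have h20 : IsUnit (2 : ZMod D) := by
      have : Nat.Coprime 2 D := (Nat.coprime_two_left).2 hDodd
      exact_mod_cast (ZMod.isUnit_iff_coprime 2 D).2 this
    have key : ∀ x : ZMod (m * D), k * x = -x → x = E.symm ((E x).1, 0) := by
      intro x hx
      have h1 := congrArg E hx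
      rw [map_mul, hkE, map_neg] at h1
      have h2 := congrArg Prod.snd h1
      simp only [Prod.snd_mul, one_mul, Prod.snd_neg] at h2
      have h3 : 2 * (E x).2 = 0 := by linear_combination h2
      rw [h20.mul_right_eq_zero] at h3
      rw [← h3]
      exact (E.symm_apply_apply x).symm
    intro x z hx hz hxz
    have h1 := hov (E x).1 (E z).1 (by
      rintro ⟨h2, h3⟩
      apply hxz
      rw [key x hx, key z hz, h2, h3]
      have : E.symm ((0 : ZMod m), (0 : ZMod D)) = 0 := map_zero _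
      rw [this])
    rw [← key x hx, ← key z hz] at h1
    exact h1
  · exfalso
    have hD : D + 1 = n := by
      have h1 : m * (D + 1) = m * n := by
        have : n ^ 2 = m * D + 1 := hn
        rw [← h] at this ⊢
        nlinarith
      exact Nat.eq_of_mul_eq_mul_left (Nat.pos_of_ne_zero hm0) h1
    have h1 := hkE
    rw [hkn, map_neg, map_natCast] at h1
    have h2 := congrArg Prod.fst h1
    simp only [Prod.fst_neg, Prod.fst_natCast] at h2
    have h3 : ((n + 1 : ℕ) : ZMod m) = 0 := by rw [h]; exact ZMod.natCast_self m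
    push_cast at h3
    have h4 : (2 : ZMod m) = 0 := by linear_combination h3 + h2
    have h5 : ((2 : ℕ) : ZMod m) = 0 := by exact_mod_cast h4
    have h6 := (ZMod.natCast_eq_zero_iff _ _).1 h5
    have h7 : Odd m := (Nat.odd_mul.1 hd).1
    have h8 := Nat.le_of_dvd (by norm_num) h6
    obtain ⟨i, hi⟩ := h7
    have : i = 0 := by omega
    omega

theorem mult_dvd {d : ℕ} [NeZero d] (hd : Odd d) (k : ZMod d) (hk : k * k = 1) :
    mult (k - 1) ∣ d := by
  by_cases hk1 : k = 1
  · have : mult (k - 1) = 1 := by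
      unfold mult
      rw [hk1, sub_self]
      have : (Finset.univ.image fun w : ZMod d => (0 : ZMod d) * w) = {0} := by
        ext y
        simp only [zero_mul, mem_image, mem_univ, true_and, mem_singleton]
        constructor
        · rintro ⟨_, rfl⟩; rfl
        · rintro rfl; exact ⟨0, rfl⟩
      rw [this, card_singleton]
    rw [this]
    exact one_dvd _
  · obtain ⟨m, D, hco, h, hm1, hK⟩ := split hd k hk hk1
    subst h
    have hkE : ZMod.chineseRemainder hco k = (-1, 1) := by
      obtain ⟨h1, h2⟩ := hK k.val (ZMod.natCast_zmod_val k)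
      rw [← ZMod.natCast_zmod_val k, map_natCast]
      exact Prod.ext h1 h2
    rw [mult_eq hd hco k hkE]
    exact Dvd.intro _ rfl

/-- uniqueness of the involutive symmetry -/
theorem uniq {d : ℕ} [NeZero d] (hd : Odd d) (hsq : Squarefree d) (hd3 : d ≠ 3)
    {ψ : ZMod d → ℂ} (hψ : Fid ψ) {k a b k' a' b' : ZMod d} {c c' : ℂ}
    (hs : Sym ψ k a b c) (hk1 : k ≠ 1) (hs' : Sym ψ k' a' b' c') (hk1' : k' ≠ 1) :
    k' = k ∧ a' = a ∧ b' = b := by
  have hcomp : Sym ψ (k' * k) (k' * a + a') (b' * k + b) (c' * c * e (b' * a)) := by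
    refine ⟨by linear_combination k * k * hs'.1 + hs.1, fun j => ?_⟩
    have e1 : k' * k * j + (k' * a + a') = k' * (k * j + a) + a' := by ring
    rw [e1, hs'.2 (k * j + a), hs.2 j]
    have e2 : e (b' * (k * j + a)) * e (b * j) = e (b' * a) * e ((b' * k + b) * j) := by
      rw [← Pool.Agent.R503.SIC.e_add, ← Pool.Agent.R503.SIC.e_add]; congr 1; ring
    linear_combination c' * c * ψ j * e2
  have hsqf : ∀ x : ZMod d, x * x = 1 → Squarefree (mult (x - 1)) := fun x hx =>
    hsq.squarefree_of_dvd (mult_dvd hd x hx)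
  obtain ⟨n, hn, hkn⟩ := dil hd hψ hs hk1 (hsqf k hs.1)
  obtain ⟨n', hn', hkn'⟩ := dil hd hψ hs' hk1' (hsqf k' hs'.1)
  have hnn : n' = n := by
    have : n' ^ 2 = n ^ 2 := by rw [hn, hn']
    exact Nat.pow_left_injective (by norm_num : 2 ≠ 0) this
  rw [hnn] at hkn'
  have hnd : (n : ZMod d) * n = 1 := by
    have : ((n ^ 2 : ℕ) : ZMod d) = ((d + 1 : ℕ) : ZMod d) := by rw [hn]
    push_cast at this
    rw [ZMod.natCast_self, zero_add] at this
    rw [← pow_two]; exact this
  have hd1 : d ≠ 1 := by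
    rintro rfl
    exact hk1 (Subsingleton.elim _ _)
  by_cases hkk : k' * k = 1
  · have hk'k : k' = k := by linear_combination k * hkk - k' * hs.1
    rw [hkk] at hcomp
    obtain ⟨h1, h2, -⟩ := Pool.Agent.R503.SIC.displ hψ hcomp
    obtain ⟨h3, h4, -⟩ := Pool.Agent.R503.SIC.displ hψ hs
    have h20 : IsUnit (2 : ZMod d) := by
      have : Nat.Coprime 2 d := (Nat.coprime_two_left).2 hd
      exact_mod_cast (ZMod.isUnit_iff_coprime 2 d).2 this
    rw [hk'k] at h1
    have h5 : 2 * (k * a + a') = 0 := by linear_combination h1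
    have h6 : 2 * (b' * k + b) = 0 := by linear_combination h2
    rw [h20.mul_right_eq_zero] at h5 h6
    refine ⟨hk'k, by linear_combination h5 - h3, ?_⟩
    have h7 : b' + b * k = 0 := by linear_combination k * h6 - b' * hs.1
    linear_combination h7 - h4
  · exfalso
    have hm1 : k' * k = -1 := by
      rcases hkn with h | h <;> rcases hkn' with h' | h'
      · exact absurd (by rw [h, h']; exact hnd) hkk
      · rw [h, h']; linear_combination -hnd
      · rw [h, h']; linear_combination -hnd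
      · exact absurd (by rw [h, h']; linear_combination hnd) hkk
    obtain ⟨n'', hn'', hkn''⟩ := dil hd hψ hcomp hkk (hsqf _ hcomp.1)
    have hnn' : n'' = n := by
      have : n'' ^ 2 = n ^ 2 := by rw [hn, hn'']
      exact Nat.pow_left_injective (by norm_num : 2 ≠ 0) this
    rw [hnn', hm1] at hkn''
    have hn2 : 2 ≤ n := by
      by_contra h
      have : n ≤ 1 := by omega
      have : n ^ 2 ≤ 1 ^ 2 := Nat.pow_le_pow_left this 2
      have : 0 < d := hd.pos
      omega
    obtain ⟨i, rfl⟩ : ∃ i, n = i + 2 := ⟨n - 2, by omega⟩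
    have hdi : d = (i + 1) * (i + 3) := by nlinarith
    rcases hkn'' with h | h
    · -- `-1 = n`
      have h8 : ((i + 2 + 1 : ℕ) : ZMod d) = 0 := by push_cast at h ⊢; linear_combination -h
      have h9 := Nat.le_of_dvd (by omega) ((ZMod.natCast_eq_zero_iff _ _).1 h8)
      rw [hdi] at h9
      have hi : i = 0 := by
        by_contra hi
        have : 1 ≤ i := by omega
        nlinarith
      rw [hi] at hdi
      exact hd3 (by rw [hdi])
    · have h8 : ((i + 1 : ℕ) : ZMod d) = 0 := by push_cast at h ⊢; linear_combination h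
      have h9 := Nat.le_of_dvd (by omega) ((ZMod.natCast_eq_zero_iff _ _).1 h8)
      rw [hdi] at h9
      nlinarith

/-- Clifford unitaries whose square is scalar -/
theorem clifford2 {d : ℕ} [NeZero d] (hd : Odd d) {ψ : ZMod d → ℂ} (hψ : Fid ψ)
    {V : Matrix (ZMod d) (ZMod d) ℂ}
    (hU : IsUnit V) (hn : Nrm V) {s l : ℂ} (hs : V * V = s • 1) (hl : V.mulVec ψ = l • ψ)
    (hV : ∀ r : ℂ, V ≠ r • 1) :
    ∃ (k a b : ZMod d) (c v : ℂ), k ≠ 1 ∧ Sym ψ k a b c ∧ v ≠ 0 ∧
      ∀ i j, V i j = if i = k * j + a then v * e (b * j) else 0 := by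
  obtain ⟨k, c₁, c₂, hk, h1, h2⟩ := Pool.Agent.R503.SIC.invol hd hU hn hs
  obtain ⟨a, b, v, hv, hent⟩ := Pool.Agent.R503.SIC.entries hU hk h1 h2
  have hl0 : l ≠ 0 := by
    rintro rfl
    rw [zero_smul] at hl
    obtain ⟨W, hW⟩ := hU.exists_left_inv
    have : ψ = 0 := by
      have h3 := congrArg (fun x => W.mulVec x) hl
      simp only [Matrix.mulVec_mulVec, hW, Matrix.one_mulVec, Matrix.mulVec_zero] at h3
      exact h3
    obtain ⟨j, hj⟩ := Pool.Agent.R503.SIC.exists_ne hψ.1
    exact hj (by rw [this]; rfl)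
  have hsym : Sym ψ k a b (v / l) := by
    refine ⟨hk, fun j => ?_⟩
    have h3 := congrFun hl (k * j + a)
    rw [Matrix.mulVec, dotProduct, Finset.sum_eq_single j] at h3
    · rw [hent, if_pos rfl, Pi.smul_apply, smul_eq_mul] at h3
      rw [div_mul_eq_mul_div, div_mul_eq_mul_div, eq_div_iff hl0, h3]
      ring
    · intro i _ hi
      rw [hent, if_neg, zero_mul]
      intro h4
      exact hi ((Pool.Agent.R503.SIC.bij hk a).1 h4.symm)
    · intro h; exact absurd (Finset.mem_univ _) h
  refine ⟨k, a, b, v / l, v, ?_, hsym, hv, hent⟩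
  rintro rfl
  obtain ⟨h3, h4, -⟩ := Pool.Agent.R503.SIC.displ hψ hsym
  have h20 : IsUnit (2 : ZMod d) := by
    have : Nat.Coprime 2 d := (Nat.coprime_two_left).2 hd
    exact_mod_cast (ZMod.isUnit_iff_coprime 2 d).2 this
  have ha : a = 0 := by
    rw [one_add_one_eq_two, h20.mul_right_eq_zero] at h3; exact h3
  have hb : b = 0 := by
    rw [one_add_one_eq_two, h20.mul_right_eq_zero] at h4; exact h4
  apply hV v
  ext i j
  rw [hent, ha, hb, Matrix.smul_apply, Matrix.one_apply, one_mul, add_zero, zero_mul,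
    Pool.Agent.R503.SIC.e_zero, mul_one]
  by_cases h : i = j
  · rw [if_pos h, if_pos h, smul_eq_mul, mul_one]
  · rw [if_neg h, if_neg h, smul_zero]

/-- such a unitary acts on displacement operators by `k` -/
theorem conj_disp {d : ℕ} [NeZero d] {V : Matrix (ZMod d) (ZMod d) ℂ} {k a b : ZMod d} {v : ℂ}
    (hk : k * k = 1) (hent : ∀ i j, V i j = if i = k * j + a then v * e (b * j) else 0)
    (x y : ZMod d) :
    V * Dm x y = e (b * x - k * y * a) • (Dm (k * x) (k * y) * V) := by
  ext i j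
  rw [Matrix.mul_apply, Matrix.smul_apply, Matrix.mul_apply,
    Finset.sum_eq_single (j + x) (fun l _ hl => by
      simp only [Dm, Matrix.of_apply]; rw [if_neg hl, mul_zero])
      (fun h => absurd (Finset.mem_univ _) h),
    Finset.sum_eq_single (k * j + a) (fun l _ hl => by
      rw [hent, if_neg hl, mul_zero]) (fun h => absurd (Finset.mem_univ _) h)]
  simp only [Dm, Matrix.of_apply, if_true, hent, smul_eq_mul]
  by_cases h : i = k * (j + x) + a
  · rw [if_pos h, if_pos (by rw [h]; ring)]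
    have e1 : e (b * (j + x)) * e (y * j) =
        e (b * x - k * y * a) * (e (k * y * (k * j + a)) * e (b * j)) := by
      rw [← Pool.Agent.R503.SIC.e_add, ← Pool.Agent.R503.SIC.e_add,
        ← Pool.Agent.R503.SIC.e_add]
      congr 1
      linear_combination -y * j * hk
    linear_combination v * e1
  · rw [if_neg h, if_neg (fun h' => h (by rw [h']; ring))]
    simp

end R848.SICP
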